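import Pool.Agent.H.MP_f13560_pr.HK.Defs

/-!
# A box outside of the image of the second piece
-/

set_option autoImplicit false

open MeasureTheory ProbabilityTheory

namespace Pool.Agent.FX.HK

variable {N k : ℕ}

private theorem Bx2_tail {a : ℝ} (ha : 0 ≤ a) : 0 < expMeasure 1 (Set.Ici a) := by
  have h : Set.Ici a = {x : ℝ | a ≤ x} := rfl
  rw [h, E_tail ha]
  exact ENNReal.ofReal_pos.2 (Real.exp_pos _)

private theorem Bx2_icc {a b : ℝ} (ha : 0 ≤ a) (hab : a < b) : 0 < expMeasure 1 (Set.Icc a b) := by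
  rw [pos_iff_ne_zero]
  intro h
  have h1 := E_tail ha
  have h2 := E_tail (ha.trans hab.le)
  have h3 : expMeasure 1 {x : ℝ | a ≤ x} ≤
      expMeasure 1 (Set.Icc a b) + expMeasure 1 {x : ℝ | b ≤ x} := by
    refine (measure_mono ?_).trans (measure_union_le _ _)
    intro x hx
    rcases le_total x b with h' | h'
    · exact Or.inl ⟨hx, h'⟩
    · exact Or.inr h'
  rw [h, h1, h2, zero_add, ENNReal.ofReal_le_ofReal_iff (Real.exp_pos _).le,
    Real.exp_le_exp] at h3
  linarith

private noncomputable def Bx2_bx (N : ℕ) (c0 d0 p1 p2 c : Fin (N + 1) × Fin (N + 1)) : Set ℝ :=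
  if c = p1 then Set.Icc 0 (1 / 4) else if c = p2 then Set.Icc (1 / 2) 1 else NB.bx N c0 d0 c

private theorem Bx2_pos (c0 d0 p1 p2 : Fin (N + 1) × Fin (N + 1)) :
    0 < law N (Set.univ.pi (Bx2_bx N c0 d0 p1 p2)) := by
  have := isProbabilityMeasure_expMeasure (r := 1) one_pos
  unfold law
  rw [Measure.pi_pi, pos_iff_ne_zero, Finset.prod_ne_zero_iff]
  intro c _
  unfold Bx2_bx NB.bx
  split_ifs
  · exact (Bx2_icc le_rfl (by norm_num)).ne'
  · exact (Bx2_icc (by norm_num) (by norm_num)).ne'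
  · exact (Bx2_icc (by norm_num) (by norm_num)).ne'
  · exact (Bx2_icc (by norm_num) (by norm_num)).ne'
  · exact (Bx2_tail (by norm_num)).ne'
  · exact (Bx2_icc le_rfl one_pos).ne'

private theorem Bx2_meas (c0 d0 p1 p2 : Fin (N + 1) × Fin (N + 1)) :
    MeasurableSet (Set.univ.pi (Bx2_bx N c0 d0 p1 p2)) := by
  refine MeasurableSet.univ_pi fun c => ?_
  unfold Bx2_bx NB.bx
  split_ifs
  · exact measurableSet_Icc
  · exact measurableSet_Icc
  · exact measurableSet_Icc
  · exact measurableSet_Icc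
  · exact measurableSet_Ici
  · exact measurableSet_Icc

/-- The product of the intervals `NB.bx N (1, N) (2, N - 1)` (so `b 1` in `[1, 2]`, `a 2` in `[3, 4]`, the rest of the corner path
`≥ 6`, the other weights in `[0, 1]`), with `[0, 1/4]` for `(1, N - 1)` and `[1/2, 1]` for `(2, N - 2)`. Subset of `cone N (corner N)` by
`NB.bx_sub` (`k0 = N + 1`, `k1 = N`); positive measure as `NB.bx_pos`; not in `RL N k`: `i = 1`. -/
theorem exists_bx (hN : 2 ≤ N) (hk1 : 2 ≤ k) (hk' : k ≤ N) : ∃ O : Set (Env N), MeasurableSet O ∧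
    0 < law N O ∧ O ⊆ cone N (corner N) ∧ (∀ ω ∈ O, ω ∉ RL N k) ∧
    ∀ ω ∈ O, ext ω (1, N - 1) < ext ω (2, N - 2) := by
  have l1 : 1 < N + 1 := by omega
  have l2 : 2 < N + 1 := by omega
  have l3 : N - 1 < N + 1 := by omega
  have l4 : N - 2 < N + 1 := by omega
  have l5 : N < N + 1 := by omega
  set c0 : Fin (N + 1) × Fin (N + 1) := (⟨1, l1⟩, ⟨N, l5⟩) with hc0
  set d0 : Fin (N + 1) × Fin (N + 1) := (⟨2, l2⟩, ⟨N - 1, l3⟩) with hd0
  set p1 : Fin (N + 1) × Fin (N + 1) := (⟨1, l1⟩, ⟨N - 1, l3⟩) with hp1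
  set p2 : Fin (N + 1) × Fin (N + 1) := (⟨2, l2⟩, ⟨N - 2, l4⟩) with hp2
  have ne1 : c0 ≠ p1 := by
    intro h
    have := congrArg (fun c : Fin (N + 1) × Fin (N + 1) => c.2.val) h
    simp only [hc0, hp1] at this
    omega
  have ne2 : c0 ≠ p2 := by
    intro h
    have := congrArg (fun c : Fin (N + 1) × Fin (N + 1) => c.2.val) h
    simp only [hc0, hp2] at this
    omega
  have ne3 : d0 ≠ p1 := by
    intro h
    have := congrArg (fun c : Fin (N + 1) × Fin (N + 1) => c.1.val) h
    simp only [hd0, hp1] at this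
    omega
  have ne4 : d0 ≠ p2 := by
    intro h
    have := congrArg (fun c : Fin (N + 1) × Fin (N + 1) => c.2.val) h
    simp only [hd0, hp2] at this
    omega
  have ne5 : d0 ≠ c0 := by
    intro h
    have := congrArg (fun c : Fin (N + 1) × Fin (N + 1) => c.1.val) h
    simp only [hd0, hc0] at this
    omega
  have ne6 : p2 ≠ p1 := by
    intro h
    have := congrArg (fun c : Fin (N + 1) × Fin (N + 1) => c.1.val) h
    simp only [hp2, hp1] at this
    omega
  have off1 : ¬ (p1.1.val = 0 ∨ p1.2.val = N) := by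
    simp only [hp1]
    omega
  have off2 : ¬ (p2.1.val = 0 ∨ p2.2.val = N) := by
    simp only [hp2]
    omega
  have e1 : ∀ ω : Env N, ext ω (1, N - 1) = ω p1 := fun ω => by
    unfold ext
    rw [dif_pos ⟨l1, l3⟩]
  have e2 : ∀ ω : Env N, ext ω (2, N - 2) = ω p2 := fun ω => by
    unfold ext
    rw [dif_pos ⟨l2, l4⟩]
  have e3 : ∀ ω : Env N, ext ω (2, N - 1) = ω d0 := fun ω => by
    unfold ext
    rw [dif_pos ⟨l2, l3⟩]
  have e4 : ∀ ω : Env N, ext ω (1, N) = ω c0 := fun ω => by
    unfold ext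
    rw [dif_pos ⟨l1, l5⟩]
  refine ⟨Set.univ.pi (Bx2_bx N c0 d0 p1 p2), Bx2_meas _ _ _ _, Bx2_pos _ _ _ _, ?_, ?_, ?_⟩
  · refine Set.Subset.trans ?_ (NB.bx_sub (c0 := c0) (d0 := d0) (k0 := N + 1) (k1 := N)
      (by omega) (by omega) (by omega) ?_ ?_ ?_ ?_)
    · intro ω hω c hc
      have h1 := hω c hc
      unfold Bx2_bx at h1
      by_cases h2 : c = p1
      · rw [if_pos h2] at h1
        unfold NB.bx
        rw [h2, if_neg ne1.symm, if_neg ne3.symm, if_neg off1]
        rw [h2] at h1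
        exact ⟨h1.1, h1.2.trans (by norm_num)⟩
      · rw [if_neg h2] at h1
        by_cases h3 : c = p2
        · rw [if_pos h3] at h1
          unfold NB.bx
          rw [h3, if_neg ne2.symm, if_neg ne4.symm, if_neg off2]
          rw [h3] at h1
          exact ⟨le_trans (by norm_num) h1.1, h1.2⟩
        · rw [if_neg h3] at h1
          exact h1
    · refine Prod.ext (Fin.ext ?_) (Fin.ext ?_)
      · simp only [hc0, corner]
        omega
      · simp only [hc0, corner]
        omega
    · simp only [hd0]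
      omega
    · simp only [hd0]
      omega
    · intro v hv h1 h2
      have h3 := hv.step N (by omega)
      rw [h1, h2] at h3
      simp only [hd0, corner] at h3
      rcases h3 with ⟨h3, -⟩ | ⟨h3, -⟩
      · omega
      · have := congrArg Fin.val h3
        simp only at this
        omega
  · intro ω hω hR
    have h1 := hR 1 (by omega)
    rw [Finset.sum_range_one, Finset.sum_range_one] at h1
    have h2 : ext ω (2, N - 1) ≤ ext ω (1, N) := h1
    rw [e3, e4] at h2
    have h3 := hω d0 trivial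
    have h4 := hω c0 trivial
    unfold Bx2_bx NB.bx at h3 h4
    rw [if_neg ne3, if_neg ne4, if_neg ne5, if_pos rfl] at h3
    rw [if_neg ne1, if_neg ne2, if_pos rfl] at h4
    linarith [h3.1, h4.2]
  · intro ω hω
    rw [e1, e2]
    have h3 := hω p1 trivial
    have h4 := hω p2 trivial
    unfold Bx2_bx at h3 h4
    rw [if_pos rfl] at h3
    rw [if_neg ne6, if_pos rfl] at h4
    linarith [h3.2, h4.1]

end Pool.Agent.FX.HK
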