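import Pool.Agent.H.MP_f13560_pr.HK.Defs

/-!
# The column part as a path
-/

set_option autoImplicit false

open MeasureTheory ProbabilityTheory

namespace Pool.Agent.FX.HK

variable {N j k : ℕ}

private theorem Col_aux (w : ℕ × ℕ → ℝ) (m : ℕ) : ∀ T : ℕ, m ≤ T →
    lpp w 0 (T + 1) + ∑ i ∈ Finset.range (m + 1), (w (1, T - i) - w (0, T + 1 - i)) ≤
      lpp w 1 T := by
  induction m with
  | zero =>
    intro T _
    rw [Finset.sum_range_one, Nat.sub_zero, Nat.sub_zero, lpp_zero_left, Finset.sum_range_succ,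
      ← lpp_zero_left]
    have h1 := FZ.lpp_right' w 0 T
    rw [zero_add] at h1
    linarith
  | succ m ih =>
    intro T hT
    obtain ⟨T, rfl⟩ : ∃ S, T = S + 1 := ⟨T - 1, by omega⟩
    have h1 := ih T (by omega)
    have h2 := FZ.lpp_up' w 1 T
    have h3 : lpp w 0 (T + 1 + 1) = lpp w 0 (T + 1) + w (0, T + 1 + 1) := by
      rw [lpp_zero_left, Finset.sum_range_succ, ← lpp_zero_left]
    rw [Finset.sum_range_succ', Nat.sub_zero, Nat.sub_zero, h3]
    have h4 : ∑ i ∈ Finset.range (m + 1), (w (1, T + 1 - (i + 1)) - w (0, T + 1 + 1 - (i + 1))) =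
        ∑ i ∈ Finset.range (m + 1), (w (1, T - i) - w (0, T + 1 - i)) := by
      refine Finset.sum_congr rfl fun i _ => ?_
      rw [Nat.add_sub_add_right, Nat.add_sub_add_right]
    rw [h4]
    linarith

/-- For `j ≥ 2`: the left side is the weight of the path up to `(0, N - j)`, `(1, N - j)`, up to `(1, N - 2)`. Induction,
or `lpp_zero_left`, `lpp_right'` at `(0, N - j)`, and `lpp_up'` `j - 2` times. -/
theorem col_le (hN : 2 ≤ N) (hj1 : 2 ≤ j) (hj : j ≤ N) (ω : Env N) :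
    lpp (ext ω) 0 (N - 1) + et N j ω ≤ lpp (ext ω) 1 (N - 2) := by
  have h1 := Col_aux (ext ω) (j - 2) (N - 2) (by omega)
  have e1 : N - 2 + 1 = N - 1 := by omega
  have e2 : j - 2 + 1 = j - 1 := by omega
  rw [e1, e2] at h1
  exact h1

/-- Case `j = 1`: `et = 0`, `FZ.lpp_right'`; case `j ≥ 2`: `col_le` and `FZ.lpp_up'`; then `FZ.lpp_run`. -/
theorem col_run (hN : 2 ≤ N) (hj1 : 1 ≤ j) (hj : j ≤ N) (ω : Env N) {x : ℕ} (hx : 1 ≤ x) :
    lpp (ext ω) 0 (N - 1) + (ext ω (1, N - 1) + et N j ω) +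
      ∑ i ∈ Finset.range (x - 1), ext ω (i + 2, N - 1) ≤ lpp (ext ω) x (N - 1) := by
  have h1 : lpp (ext ω) 0 (N - 1) + (ext ω (1, N - 1) + et N j ω) ≤ lpp (ext ω) 1 (N - 1) := by
    by_cases hj2 : j = 1
    · have h2 : et N j ω = 0 := by
        rw [hj2]
        unfold et
        rw [Nat.sub_self, Finset.sum_range_zero]
      rw [h2, add_zero]
      exact FZ.lpp_right' (ext ω) 0 (N - 1)
    · have h2 := col_le hN (by omega) hj ω
      have h3 := FZ.lpp_up' (ext ω) 1 (N - 2)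
      have e1 : N - 2 + 1 = N - 1 := by omega
      rw [e1] at h3
      linarith
  have h4 := FZ.lpp_run (ext ω) 1 (N - 1) (x - 1)
  have e2 : 1 + (x - 1) = x := by omega
  rw [e2] at h4
  have h5 : ∑ i ∈ Finset.range (x - 1), ext ω (1 + 1 + i, N - 1) =
      ∑ i ∈ Finset.range (x - 1), ext ω (i + 2, N - 1) := by
    refine Finset.sum_congr rfl fun i _ => ?_
    rw [add_comm (1 + 1) i]
  rw [h5] at h4
  linarith

end Pool.Agent.FX.HK
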