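import Pool.Agent.FZ.Main
import Pool.Agent.H.MP_f13560_pr.NB.Sym
import Pool.Agent.H.MP_f13560_pr.NB.Box

/-!
# Paths through `(1, N - 1)`: definitions

Notation in the proofs: `a x = ω (x, N - 1)`, `b x = ω (x, N)`, `C0 = lpp (ext ω) 0 (N - 1)` (the left column below row `N`),
`a1' = a 1 + et N j ω`, `t⁺ = max t 0`, `t⁻ = max (-t) 0`, so `t = t⁺ - t⁻`.
-/

set_option autoImplicit false

open MeasureTheory ProbabilityTheory

namespace Pool.Agent.FX.HK

/-- the path up to `(0, N - j)`, to `(1, N - j)`, up to `(1, N - 1)`, right to `(k, N - 1)`, up to `(k, N)`, right -/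
def hk (N j k i : ℕ) : Fin (N + 1) × Fin (N + 1) :=
  if i + j ≤ N then (⟨0, by omega⟩, ⟨min i N, by omega⟩)
  else if i ≤ N then (⟨min 1 N, by omega⟩, ⟨min (i - 1) N, by omega⟩)
  else if i < N + k then (⟨min (i - (N - 1)) N, by omega⟩, ⟨N - 1, by omega⟩)
  else (⟨min (i - N) N, by omega⟩, ⟨N, by omega⟩)

/-- column `1` minus column `0`, on the part of `hk N j k` in column `1` below `(1, N - 1)` -/
noncomputable def et (N j : ℕ) (ω : Env N) : ℝ :=
  ∑ i ∈ Finset.range (j - 1), (ext ω (1, N - 2 - i) - ext ω (0, N - 1 - i))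

/-- the recursion with `a 1` replaced by `a 1 + et N j ω` -/
noncomputable def U (N j : ℕ) (ω : Env N) : ℕ → ℝ
  | 0 => 0
  | 1 => ext ω (1, N - 1) + et N j ω - ext ω (0, N)
  | x + 2 => ext ω (x + 2, N - 1) - ext ω (x + 1, N) - max (-U N j ω (x + 1)) 0

/-- the map of the second piece -/
noncomputable def PhiE (N j k : ℕ) (ω : Env N) : Env N := fun c =>
  if c.2.val = N - 1 ∧ 1 ≤ c.1.val ∧ c.1.val < k then ω c - max (U N j ω c.1.val) 0
  else if c.2.val = N - 1 ∧ c.1.val = k then ω c - U N j ω k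
  else if c.2.val = N ∧ 1 ≤ c.1.val ∧ c.1.val < k then ω c + max (U N j ω c.1.val) 0
  else if c.2.val = N ∧ c.1.val = 0 then ω c + U N j ω k
  else ω c

/-- the recursion which starts in column `1` -/
noncomputable def W (N : ℕ) (ω : Env N) : ℕ → ℝ
  | 0 => 0
  | 1 => 0
  | x + 2 => ext ω (x + 2, N - 1) - ext ω (x + 1, N) - max (-W N ω (x + 1)) 0

/-- the map of the first piece (only columns `≥ 1` are changed) -/
noncomputable def Er (N k : ℕ) (ω : Env N) : Env N := fun c =>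
  if c.2.val = N - 1 ∧ 2 ≤ c.1.val ∧ c.1.val < k then ω c - max (W N ω c.1.val) 0
  else if c.2.val = N - 1 ∧ c.1.val = k then ω c - W N ω k
  else if c.2.val = N ∧ 2 ≤ c.1.val ∧ c.1.val < k then ω c + max (W N ω c.1.val) 0
  else if c.2.val = N ∧ c.1.val = 1 then ω c + W N ω k
  else ω c

/-- the partial sums of the upper row dominate -/
def RL (N k : ℕ) : Set (Env N) := {ω | ∀ i < k,
  ∑ l ∈ Finset.range i, ext ω (l + 2, N - 1) ≤ ∑ l ∈ Finset.range i, ext ω (l + 1, N)}

/-- the length of `hk N j k` -/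
noncomputable def Lam (N j k : ℕ) (ω : Env N) : ℝ :=
  lpp (ext ω) 0 (N - 1) + (ext ω (1, N - 1) + et N j ω) +
    ∑ i ∈ Finset.range (k - 1), ext ω (i + 2, N - 1) +
    (∑ i ∈ Finset.range (N + 1), ext ω (i, N) - ∑ i ∈ Finset.range k, ext ω (i, N))

end Pool.Agent.FX.HK
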