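import Pool.Agent.H.MP_f13560_pr.HK.FacU

/-!
# The map of the second piece
-/

set_option autoImplicit false

open MeasureTheory ProbabilityTheory

namespace Pool.Agent.FX.HK

variable {N j k : ℕ} {ω : Env N}

private lemma DetE_ext (ω : Env N) {x y : ℕ} (hx : x ≤ N) (hy : y ≤ N) :
    ext (PhiE N j k ω) (x, y) = if y = N - 1 ∧ 1 ≤ x ∧ x < k then ext ω (x, y) - max (U N j ω x) 0
      else if y = N - 1 ∧ x = k then ext ω (x, y) - U N j ω k
      else if y = N ∧ 1 ≤ x ∧ x < k then ext ω (x, y) + max (U N j ω x) 0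
      else if y = N ∧ x = 0 then ext ω (x, y) + U N j ω k
      else ext ω (x, y) := by
  rw [FZ.ext_at _ (by omega) (by omega), FZ.ext_at _ (by omega) (by omega)]
  rfl

/-- the sum of the positive parts -/
private noncomputable def DetE_M (N j : ℕ) (ω : Env N) (x : ℕ) : ℝ :=
  ∑ i ∈ Finset.range x, max (U N j ω (i + 1)) 0

private lemma DetE_M_succ (ω : Env N) (x : ℕ) :
    DetE_M N j ω (x + 1) = DetE_M N j ω x + max (U N j ω (x + 1)) 0 := by
  unfold DetE_M; rw [Finset.sum_range_succ]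

private lemma DetE_M_nonneg (ω : Env N) (x : ℕ) : 0 ≤ DetE_M N j ω x :=
  Finset.sum_nonneg fun _ _ => le_max_right _ _

private lemma DetE_ell (ω : Env N) (x : ℕ) :
    ext ω (1, N - 1) + et N j ω + ∑ i ∈ Finset.range x, ext ω (i + 2, N - 1) -
      ∑ i ∈ Finset.range (x + 1), ext ω (i, N) =
      DetE_M N j ω (x + 1) - max (-U N j ω (x + 1)) 0 := by
  induction x with
  | zero =>
    have h2 := FZ.pos_sub_neg (U N j ω (0 + 1))
    rw [DetE_M_succ]
    simp only [DetE_M, Finset.range_zero, Finset.sum_empty, zero_add, Finset.sum_range_one] at h2 ⊢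
    rw [h2]
    simp only [U]
    ring
  | succ x ih =>
    rw [Finset.sum_range_succ, Finset.sum_range_succ (fun i => ext ω (i, N)), DetE_M_succ]
    have h1 : U N j ω (x + 1 + 1) =
        ext ω (x + 2, N - 1) - ext ω (x + 1, N) - max (-U N j ω (x + 1)) 0 := rfl
    have h2 := FZ.pos_sub_neg (U N j ω (x + 1 + 1))
    linarith

private lemma DetE_le (h : ∀ c, 0 ≤ ω c) {x : ℕ} (hx : x + 2 ≤ N) :
    U N j ω (x + 2) ≤ ext ω (x + 2, N - 1) := by
  have h0 : U N j ω (x + 2) =
        ext ω (x + 2, N - 1) - ext ω (x + 1, N) - max (-U N j ω (x + 1)) 0 := rfl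
  rw [h0]
  have h1 : 0 ≤ ext ω (x + 1, N) := by rw [FZ.ext_at ω (by omega) (by omega)]; exact h _
  have h2 : 0 ≤ max (-U N j ω (x + 1)) 0 := le_max_right _ _
  linarith

private lemma DetE_nonneg (hN : 2 ≤ N) (hj1 : 1 ≤ j) (hj : j ≤ N) (hk1 : 2 ≤ k) (hk' : k ≤ N)
    (h : ω ∈ cone N (hk N j k)) (hU : U N j ω 1 < 0) : ∀ c, 0 ≤ PhiE N j k ω c := by
  intro c
  have hc := h.1 c
  have hu := U_nonneg hN hj1 hj (by omega) hk' h
  have ec : ext ω (c.1.val, c.2.val) = ω c := by
    rw [FZ.ext_at ω c.1.isLt c.2.isLt]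
  have c1 := c.1.isLt
  unfold PhiE
  split_ifs with h1 h2 h3 h4
  · rcases Nat.lt_or_ge c.1.val 2 with h5 | h5
    · have h6 : c.1.val = 1 := by omega
      rw [h6, max_eq_right hU.le, sub_zero]
      exact hc
    · obtain ⟨m, hm⟩ : ∃ m, c.1.val = m + 2 := ⟨c.1.val - 2, by omega⟩
      have := DetE_le (j := j) h.1 (x := m) (by omega)
      rw [h1.1, hm] at ec
      rw [hm]
      rw [ec] at this
      have := max_le this hc
      linarith
  · obtain ⟨m, hm⟩ : ∃ m, k = m + 2 := ⟨k - 2, by omega⟩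
    have := DetE_le (j := j) h.1 (x := m) (by omega)
    rw [h2.1, h2.2, hm] at ec
    rw [ec] at this
    rw [hm]
    linarith
  · have := le_max_right (U N j ω c.1.val) 0
    linarith
  · linarith
  · exact hc

private lemma DetE_le_ext (hN : 2 ≤ N) (hu : 0 ≤ U N j ω k) {x y : ℕ}
    (hx : x ≤ N) (hy : y ≤ N - 1) : ext (PhiE N j k ω) (x, y) ≤ ext ω (x, y) := by
  rw [DetE_ext ω hx (by omega)]
  have := le_max_right (U N j ω x) 0
  split_ifs with h1 h2 h3 h4
  · linarith
  · linarith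
  · omega
  · omega
  · exact le_rfl

private lemma DetE_top (hN : 2 ≤ N) (hk1 : 2 ≤ k) {x : ℕ} (hx : x + 1 ≤ N + 1) :
    ∑ i ∈ Finset.range (x + 1), ext (PhiE N j k ω) (i, N) =
      ∑ i ∈ Finset.range (x + 1), ext ω (i, N) + U N j ω k + DetE_M N j ω (min x (k - 1)) := by
  induction x with
  | zero =>
    rw [Finset.sum_range_one, Finset.sum_range_one, DetE_ext ω (by omega) le_rfl]
    rw [if_neg (by omega), if_neg (by omega), if_neg (by omega), if_pos (by simp)]
    simp [DetE_M]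
  | succ x ih =>
    rw [Finset.sum_range_succ, Finset.sum_range_succ (fun i => ext ω (i, N)), ih (by omega),
      DetE_ext ω (by omega) le_rfl, if_neg (by omega), if_neg (by omega)]
    by_cases hxk : x + 1 < k
    · rw [if_pos (by omega), min_eq_left (by omega), min_eq_left (by omega), DetE_M_succ]
      ring
    · rw [if_neg (by omega), if_neg (by omega), min_eq_right (by omega), min_eq_right (by omega)]
      ring

/-- Copy of FZ/Det2.lean (`Phi_nonneg`, `le_ext_Phi`, `top_sum`, `Phi_cone`) with `U` instead of `u`, `a 1 + et` instead of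
`a 1` in the formula `ell`, and `fac1`, `fac2`, `U_nonneg` instead of `cone_left`, `cone_mid`, `u_nonneg`. Since `U 1 ≤ 0` the
weight `a 1` is not changed, so nonnegativity only needs `U x ≤ a x` for `x ≥ 2`. `mem_cone_corner`. -/
theorem PhiE_mem (hN : 2 ≤ N) (hj1 : 1 ≤ j) (hj : j ≤ N) (hk1 : 2 ≤ k) (hk' : k ≤ N)
    (h : ω ∈ cone N (hk N j k)) (hU : U N j ω 1 < 0) :
    (∀ c, 0 ≤ PhiE N j k ω c) ∧ PhiE N j k ω ∈ cone N (corner N) := by
  have hnn := DetE_nonneg hN hj1 hj hk1 hk' h hU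
  refine ⟨hnn, ?_⟩
  have hu := U_nonneg hN hj1 hj (by omega) hk' h
  have e0 : lpp (ext (PhiE N j k ω)) 0 (N - 1) = lpp (ext ω) 0 (N - 1) := by
    refine lpp_congr fun a ha b hb => ?_
    rw [DetE_ext ω (by omega) (by omega), if_neg (by omega), if_neg (by omega), if_neg (by omega),
      if_neg (by omega)]
  refine mem_cone_corner (by omega) hnn fun x hx1 hxN => ?_
  obtain ⟨m, rfl⟩ : ∃ m, x = m + 1 := ⟨x - 1, by omega⟩
  rw [e0, DetE_top hN hk1 (by omega)]
  have hd := FZ.lpp_drop (w := ext ω) (w' := ext (PhiE N j k ω)) (i := m + 1) (j := N - 1)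
    fun a ha b hb => DetE_le_ext hN hu (by omega) hb
  have hell := DetE_ell (j := j) ω m
  rw [DetE_M_succ] at hell
  have hM0 := DetE_M_nonneg (j := j) ω (min m (k - 1))
  rcases lt_trichotomy (m + 1) k with hlt | heq | hgt
  · have hl := fac1 hN hj1 hj (by omega) hk' h (x := m + 1) (by omega) hlt.le
    rw [Nat.add_sub_cancel] at hl
    rw [DetE_ext ω (by omega) (by omega), if_pos (by omega)] at hd
    rw [min_eq_left (by omega)]
    have hneg := le_max_right (-U N j ω (m + 1)) 0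
    linarith
  · have hl := fac1 hN hj1 hj (by omega) hk' h (x := m + 1) (by omega) heq.le
    rw [Nat.add_sub_cancel] at hl
    rw [DetE_ext ω (by omega) (by omega), if_neg (by omega), if_pos ⟨rfl, heq⟩] at hd
    rw [min_eq_left (by omega)]
    rw [heq] at hell hd hl ⊢
    have hneg := FZ.pos_sub_neg (U N j ω k)
    linarith
  · have hl := fac2 hN hj1 hj (by omega) hk' h hxN
    have hge := lpp_mono (w := ext (PhiE N j k ω)) (w' := ext ω) (i := m + 1) (j := N - 1)
      fun a ha b hb => DetE_le_ext hN hu (by omega) hb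
    obtain ⟨q, rfl⟩ : ∃ q, k = q + 1 := ⟨k - 1, by omega⟩
    have helk := DetE_ell (j := j) ω q
    rw [min_eq_right (by omega), Nat.add_sub_cancel]
    rw [Nat.add_sub_cancel] at hl
    rw [DetE_M_succ] at helk
    have hneg := FZ.pos_sub_neg (U N j ω (q + 1))
    linarith

end Pool.Agent.FX.HK
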