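import Pool.Agent.H.MP_f13560_pr.HK.Defs

/-!
# A sufficient condition for a path to be a longest one
-/

set_option autoImplicit false

open MeasureTheory ProbabilityTheory

namespace Pool.Agent.FX.HK

variable {N : ℕ}

/-- Proof: `IsPath.len_le`, and `lpp (ext ω) x N ≤ len N v ω - (sum of the b i with x < i ≤ N)` by induction on `x`:
`lpp w (x + 1) N = max (lpp w x N) (lpp w (x + 1) (N - 1)) + w (x + 1, N)`. -/
theorem mem_cone' (hN : 1 ≤ N) {ω : Env N} (h : ∀ c, 0 ≤ ω c) {v : ℕ → Fin (N + 1) × Fin (N + 1)}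
    (h' : ∀ x ≤ N, lpp (ext ω) x (N - 1) + (∑ i ∈ Finset.range (N + 1), ext ω (i, N) -
      ∑ i ∈ Finset.range x, ext ω (i, N)) ≤ len N v ω) : ω ∈ cone N v := by
  obtain ⟨M, rfl⟩ : ∃ M, N = M + 1 := ⟨N - 1, by omega⟩
  have key : ∀ x ≤ M + 1, lpp (ext ω) x (M + 1) +
      (∑ i ∈ Finset.range (M + 1 + 1), ext ω (i, M + 1) -
        ∑ i ∈ Finset.range (x + 1), ext ω (i, M + 1)) ≤ len (M + 1) v ω := by
    intro x
    induction x with
    | zero =>
      intro _
      have h1 := h' 0 (Nat.zero_le _)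
      simp only [Nat.add_sub_cancel, Finset.sum_range_zero] at h1
      rw [show lpp (ext ω) 0 (M + 1) = lpp (ext ω) 0 M + ext ω (0, M + 1) by rw [lpp],
        Finset.sum_range_succ (fun i => ext ω (i, M + 1)) 0, Finset.sum_range_zero]
      linarith
    | succ x ih =>
      intro hx
      have h1 := h' (x + 1) hx
      have h2 := ih (by omega)
      simp only [Nat.add_sub_cancel] at h1
      rw [show lpp (ext ω) (x + 1) (M + 1) =
          max (lpp (ext ω) x (M + 1)) (lpp (ext ω) (x + 1) M) + ext ω (x + 1, M + 1) by rw [lpp],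
        Finset.sum_range_succ (fun i => ext ω (i, M + 1)) (x + 1)]
      rcases le_total (lpp (ext ω) x (M + 1)) (lpp (ext ω) (x + 1) M) with hle | hle
      · rw [max_eq_right hle]
        linarith
      · rw [max_eq_left hle]
        linarith
  have h3 := key (M + 1) le_rfl
  rw [sub_self, add_zero] at h3
  exact ⟨h, fun v' hv' => (hv'.len_le ω).trans h3⟩

end Pool.Agent.FX.HK
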