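import Pool.Agent.H.MP_f13560_pr.HK.FacW
import Pool.Agent.H.MP_f13560_pr.HK.MemC

/-!
# The map of the first piece
-/

set_option autoImplicit false

open MeasureTheory ProbabilityTheory

namespace Pool.Agent.FX.HK

variable {N j k : ℕ} {ω : Env N}

private lemma DetR_ext (ω : Env N) {x y : ℕ} (hx : x ≤ N) (hy : y ≤ N) :
    ext (Er N k ω) (x, y) = if y = N - 1 ∧ 2 ≤ x ∧ x < k then ext ω (x, y) - max (W N ω x) 0
      else if y = N - 1 ∧ x = k then ext ω (x, y) - W N ω k
      else if y = N ∧ 2 ≤ x ∧ x < k then ext ω (x, y) + max (W N ω x) 0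
      else if y = N ∧ x = 1 then ext ω (x, y) + W N ω k
      else ext ω (x, y) := by
  rw [FZ.ext_at _ (by omega) (by omega), FZ.ext_at _ (by omega) (by omega)]
  rfl

private noncomputable def DetR_M (N : ℕ) (ω : Env N) (x : ℕ) : ℝ :=
  ∑ i ∈ Finset.range x, max (W N ω (i + 1)) 0

private lemma DetR_M_succ (ω : Env N) (x : ℕ) :
    DetR_M N ω (x + 1) = DetR_M N ω x + max (W N ω (x + 1)) 0 := by
  unfold DetR_M; rw [Finset.sum_range_succ]

private lemma DetR_M_one (ω : Env N) : DetR_M N ω 1 = 0 := by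
  unfold DetR_M
  rw [Finset.sum_range_one]
  simp [W]

private lemma DetR_W_succ (ω : Env N) (x : ℕ) :
    W N ω (x + 2) = ext ω (x + 2, N - 1) - ext ω (x + 1, N) - max (-W N ω (x + 1)) 0 := by
  rw [W]

private lemma DetR_ell (ω : Env N) (m : ℕ) :
    ∑ i ∈ Finset.range m, ext ω (i + 2, N - 1) - ∑ i ∈ Finset.range m, ext ω (i + 1, N) =
      DetR_M N ω (m + 1) - max (-W N ω (m + 1)) 0 := by
  induction m with
  | zero =>
    rw [Finset.sum_range_zero, Finset.sum_range_zero, zero_add, DetR_M_one]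
    simp [W]
  | succ m ih =>
    rw [Finset.sum_range_succ, Finset.sum_range_succ, DetR_M_succ]
    have h1 := DetR_W_succ ω m
    have h2 := FZ.pos_sub_neg (W N ω (m + 1 + 1))
    have h3 : m + 1 + 1 = m + 2 := rfl
    rw [h3] at h2 ⊢
    linarith

private lemma DetR_b (ω : Env N) (m : ℕ) :
    ∑ i ∈ Finset.range (m + 1), ext ω (i, N) =
      ext ω (0, N) + ∑ i ∈ Finset.range m, ext ω (i + 1, N) := by
  rw [Finset.sum_range_succ', add_comm]

private lemma DetR_pos (h : ∀ c, 0 ≤ ω c) {x y : ℕ} (hx : x ≤ N) (hy : y ≤ N) :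
    0 ≤ ext ω (x, y) := by
  rw [FZ.ext_at ω (by omega) (by omega)]
  exact h _

private lemma DetR_W_le (h : ∀ c, 0 ≤ ω c) {x : ℕ} (hx : x + 2 ≤ N) :
    W N ω (x + 2) ≤ ext ω (x + 2, N - 1) := by
  rw [DetR_W_succ]
  have h1 := DetR_pos h (x := x + 1) (y := N) (by omega) le_rfl
  have h2 : 0 ≤ max (-W N ω (x + 1)) 0 := le_max_right _ _
  linarith

private lemma DetR_nonneg (hN : 2 ≤ N) (hk1 : 2 ≤ k) (hk' : k ≤ N) (h : ∀ c, 0 ≤ ω c)
    (hW : 0 ≤ W N ω k) : ∀ c, 0 ≤ Er N k ω c := by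
  intro c
  have hc := h c
  have ec : ext ω (c.1.val, c.2.val) = ω c := by
    rw [FZ.ext_at ω c.1.isLt c.2.isLt]
  have c1 := c.1.isLt
  unfold Er
  split_ifs with h1 h2 h3 h4
  · obtain ⟨m, hm⟩ : ∃ m, c.1.val = m + 2 := ⟨c.1.val - 2, by omega⟩
    have := DetR_W_le h (x := m) (by omega)
    rw [h1.1, hm] at ec
    rw [hm]
    rw [ec] at this
    have := max_le this hc
    linarith
  · obtain ⟨m, hm⟩ : ∃ m, k = m + 2 := ⟨k - 2, by omega⟩
    have := DetR_W_le h (x := m) (by omega)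
    rw [h2.1, h2.2, hm] at ec
    rw [ec] at this
    rw [hm]
    linarith
  · have := le_max_right (W N ω c.1.val) 0
    linarith
  · linarith
  · exact hc

private lemma DetR_le (hN : 2 ≤ N) (hW : 0 ≤ W N ω k) {x y : ℕ}
    (hx : x ≤ N) (hy : y ≤ N - 1) : ext (Er N k ω) (x, y) ≤ ext ω (x, y) := by
  rw [DetR_ext ω hx (by omega)]
  have := le_max_right (W N ω x) 0
  split_ifs with h1 h2 h3 h4
  · linarith
  · linarith
  · omega
  · omega
  · exact le_rfl

private lemma DetR_same (hN : 2 ≤ N) (hk1 : 2 ≤ k) (ω : Env N) {x y : ℕ} (hx : x ≤ 1)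
    (hy : y ≤ N - 1) : ext (Er N k ω) (x, y) = ext ω (x, y) := by
  rw [DetR_ext ω (by omega) (by omega), if_neg (by omega), if_neg (by omega), if_neg (by omega),
    if_neg (by omega)]

private lemma DetR_et (hN : 2 ≤ N) (hk1 : 2 ≤ k) (ω : Env N) :
    et N j (Er N k ω) = et N j ω := by
  unfold et
  refine Finset.sum_congr rfl fun i _ => ?_
  rw [DetR_same hN hk1 ω (by omega) (by omega), DetR_same hN hk1 ω (by omega) (by omega)]

private lemma DetR_top (hN : 2 ≤ N) (hk1 : 2 ≤ k) (ω : Env N) {x : ℕ} (hx : x + 2 ≤ N + 1) :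
    ∑ i ∈ Finset.range (x + 2), ext (Er N k ω) (i, N) =
      ∑ i ∈ Finset.range (x + 2), ext ω (i, N) + W N ω k + DetR_M N ω (min (x + 1) (k - 1)) := by
  induction x with
  | zero =>
    rw [Finset.sum_range_succ, Finset.sum_range_one, Finset.sum_range_succ, Finset.sum_range_one,
      DetR_ext ω (by omega) le_rfl, DetR_ext ω (by omega) le_rfl]
    rw [if_neg (by omega), if_neg (by omega), if_neg (by omega), if_neg (by omega),
      if_neg (by omega), if_neg (by omega), if_neg (by omega), if_pos (by simp),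
      min_eq_left (by omega), zero_add, DetR_M_one]
    ring
  | succ x ih =>
    rw [Finset.sum_range_succ, Finset.sum_range_succ (fun i => ext ω (i, N)), ih (by omega),
      DetR_ext ω (by omega) le_rfl, if_neg (by omega), if_neg (by omega)]
    by_cases hxk : x + 2 < k
    · rw [if_pos (by omega), min_eq_left (by omega), min_eq_left (by omega)]
      have hM := DetR_M_succ ω (x + 1)
      have r : x + 1 + 1 = x + 2 := rfl
      rw [r] at hM ⊢
      rw [hM]
      ring
    · rw [if_neg (by omega), if_neg (by omega), min_eq_right (by omega), min_eq_right (by omega)]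
      ring

/-- `ω' = Er N k ω`. Nonnegativity: `0 ≤ W k` (`W_nonneg`) and `W x ≤ a x` for `x ≥ 2`. `mem_cone'` and `len_hk` for `hk N j 1`
(`et` and `a 1` are not changed): to show for `x ≤ N`
`lpp ω' x (N - 1) - (b' 0 + ... + b' (x - 1)) ≤ C0 + a1' - b 0`. With `M x = ∑ i ∈ range x, (W (i + 1))⁺`:
`x = 0`: `0 ≤ U 1`. `b' 1 + ... + b' (x - 1) = b 1 + ... + b (x - 1) + W k + M (min (x - 1) (k - 1))` for `x ≥ 2`.
`x = 1`: `lpp ω' ≤ lpp ω`, `fac1`. `2 ≤ x < k`: `lpp ω' x (N - 1) + (W x)⁺ ≤ lpp ω x (N - 1)` (`FZ.lpp_drop`), `fac1`,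
`a 2 + ... + a x - (b 1 + ... + b (x - 1)) = M x - (W x)⁻`. `x = k`: the same with `W k` instead of `(W k)⁺`.
`x > k`: `lpp ω' ≤ lpp ω`, `fac2`. -/
theorem Er_mem (hN : 2 ≤ N) (hj1 : 1 ≤ j) (hj : j ≤ N) (hk1 : 2 ≤ k) (hk' : k ≤ N)
    (h : ω ∈ cone N (hk N j k)) (hU : 0 ≤ U N j ω 1) :
    (∀ c, 0 ≤ Er N k ω c) ∧ Er N k ω ∈ cone N (hk N j 1) := by
  have hW := W_nonneg hN hj1 hj hk1 hk' h
  have hpos := DetR_nonneg hN hk1 hk' h.1 hW
  refine ⟨hpos, mem_cone' (by omega) hpos fun x hx => ?_⟩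
  have e0 : lpp (ext (Er N k ω)) 0 (N - 1) = lpp (ext ω) 0 (N - 1) := by
    refine lpp_congr fun a ha b hb => ?_
    exact DetR_same hN hk1 ω (by omega) hb
  have e1 : ∑ i ∈ Finset.range 1, ext (Er N k ω) (i, N) = ext ω (0, N) := by
    rw [Finset.sum_range_one, DetR_ext ω (by omega) le_rfl, if_neg (by omega), if_neg (by omega),
      if_neg (by omega), if_neg (by omega)]
  have hlen : len N (hk N j 1) (Er N k ω) = lpp (ext ω) 0 (N - 1) +
      (ext ω (1, N - 1) + et N j ω) +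
      (∑ i ∈ Finset.range (N + 1), ext (Er N k ω) (i, N) - ext ω (0, N)) := by
    rw [len_hk hN hj1 hj le_rfl (by omega) (Er N k ω)]
    unfold Lam
    rw [e0, e1, DetR_same hN hk1 ω le_rfl le_rfl, DetR_et hN hk1 ω]
    simp
  have hU1 : 0 ≤ ext ω (1, N - 1) + et N j ω - ext ω (0, N) := hU
  rw [hlen]
  have hmono := lpp_mono (w := ext (Er N k ω)) (w' := ext ω) (i := x) (j := N - 1)
      fun a ha b hb => DetR_le hN hW (by omega) hb
  rcases Nat.lt_or_ge x 2 with hx2 | hx2
  · rcases (show x = 0 ∨ x = 1 by omega) with rfl | rfl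
    · rw [Finset.sum_range_zero, e0]
      linarith
    · rw [e1]
      have hf := fac1 hN hj1 hj (by omega) hk' h (x := 1) le_rfl (by omega)
      simp only [Nat.sub_self, Finset.sum_range_zero, add_zero] at hf
      linarith
  · obtain ⟨m, rfl⟩ : ∃ m, x = m + 2 := ⟨x - 2, by omega⟩
    rw [DetR_top hN hk1 ω (by omega)]
    have hd := FZ.lpp_drop (w := ext ω) (w' := ext (Er N k ω)) (i := m + 2) (j := N - 1)
      fun a ha b hb => DetR_le hN hW (by omega) hb
    have hell := DetR_ell ω (m + 1)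
    have hb := DetR_b ω (m + 1)
    have hM1 := DetR_M_succ ω (m + 1)
    have r1 : m + 1 + 1 = m + 2 := rfl
    rw [r1] at hell hb hM1
    rcases lt_trichotomy (m + 2) k with hlt | heq | hgt
    · have hf := fac1 hN hj1 hj (by omega) hk' h (x := m + 2) (by omega) hlt.le
      rw [show m + 2 - 1 = m + 1 by omega] at hf
      rw [DetR_ext ω (by omega) (by omega), if_pos (by omega)] at hd
      rw [min_eq_left (by omega)]
      have hneg := le_max_right (-W N ω (m + 2)) 0
      linarith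
    · have hf := fac1 hN hj1 hj (by omega) hk' h (x := m + 2) (by omega) heq.le
      rw [show m + 2 - 1 = m + 1 by omega] at hf
      rw [DetR_ext ω (by omega) (by omega), if_neg (by omega), if_pos ⟨rfl, heq⟩] at hd
      rw [min_eq_left (by omega)]
      rw [← heq] at hd hW ⊢
      have hneg := FZ.pos_sub_neg (W N ω (m + 2))
      linarith
    · have hf := fac2 hN hj1 hj (by omega) hk' h (x := m + 2) hx
      obtain ⟨q, rfl⟩ : ∃ q, k = q + 2 := ⟨k - 2, by omega⟩
      rw [min_eq_right (by omega)]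
      rw [show q + 2 - 1 = q + 1 by omega] at hf ⊢
      have helk := DetR_ell ω (q + 1)
      have hbk := DetR_b ω (q + 1)
      have hMk := DetR_M_succ ω (q + 1)
      have r2 : q + 1 + 1 = q + 2 := rfl
      rw [r2] at helk hbk hMk
      have hneg := FZ.pos_sub_neg (W N ω (q + 2))
      linarith

end Pool.Agent.FX.HK
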