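import Pool.Agent.H.MP_f13560_pr.HK.Len
import Pool.Agent.H.MP_f13560_pr.HK.Col

/-!
# Inequalities in the cone of the path
-/

set_option autoImplicit false

open MeasureTheory ProbabilityTheory

namespace Pool.Agent.FX.HK

variable {N j k : ℕ} {ω : Env N}

/-- As `FZ.cone_mid` (FZ/Det2.lean): `lpp (ext ω) N N ≤ len` by `exists_path`, `len_hk`, `FZ.lpp_top`. -/
theorem fac2 (hN : 2 ≤ N) (hj1 : 1 ≤ j) (hj : j ≤ N) (hk1 : 1 ≤ k) (hk' : k ≤ N)
    (h : ω ∈ cone N (hk N j k)) {x : ℕ} (hx : x ≤ N) :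
    lpp (ext ω) x (N - 1) - ∑ i ∈ Finset.range x, ext ω (i, N) ≤
      lpp (ext ω) 0 (N - 1) + (ext ω (1, N - 1) + et N j ω) +
        ∑ i ∈ Finset.range (k - 1), ext ω (i + 2, N - 1) - ∑ i ∈ Finset.range k, ext ω (i, N) := by
  have h1 : lpp (ext ω) N N ≤ len N (hk N j k) ω := by
    obtain ⟨v, hv, e⟩ := exists_path N ω
    rw [← e]
    exact h.2 v hv
  rw [len_hk hN hj1 hj hk1 hk'] at h1
  unfold Lam at h1
  have h2 := FZ.lpp_top (ext ω) (show 1 ≤ N by omega) hx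
  linarith

/-- As `FZ.cone_left`: `fac2` for `x = k` and `FZ.lpp_run`. -/
theorem fac1 (hN : 2 ≤ N) (hj1 : 1 ≤ j) (hj : j ≤ N) (hk1 : 1 ≤ k) (hk' : k ≤ N)
    (h : ω ∈ cone N (hk N j k)) {x : ℕ} (hx1 : 1 ≤ x) (hx : x ≤ k) :
    lpp (ext ω) x (N - 1) ≤ lpp (ext ω) 0 (N - 1) + (ext ω (1, N - 1) + et N j ω) +
      ∑ i ∈ Finset.range (x - 1), ext ω (i + 2, N - 1) := by
  have h1 := fac2 hN hj1 hj hk1 hk' h hk'
  have h3 := FZ.lpp_run (ext ω) x (N - 1) (k - x)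
  rw [show x + (k - x) = k by omega] at h3
  have h4 : ∑ i ∈ Finset.range (k - 1), ext ω (i + 2, N - 1) =
      ∑ i ∈ Finset.range (x - 1), ext ω (i + 2, N - 1) +
        ∑ i ∈ Finset.range (k - x), ext ω (x + 1 + i, N - 1) := by
    rw [show k - 1 = (x - 1) + (k - x) by omega,
      Finset.sum_range_add (fun i => ext ω (i + 2, N - 1)) (x - 1) (k - x)]
    congr 1
    refine Finset.sum_congr rfl fun i _ => ?_
    rw [show x - 1 + i + 2 = x + 1 + i by omega]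
  linarith

/-- `fac1` for `x = 2`, `col_le`, `FZ.lpp_right'`, `FZ.lpp_up'`: the path through `(1, N - 2)`, `(2, N - 2)`, `(2, N - 1)`. -/
theorem fac4 (hN : 2 ≤ N) (hj1 : 2 ≤ j) (hj : j ≤ N) (hk1 : 2 ≤ k) (hk' : k ≤ N)
    (h : ω ∈ cone N (hk N j k)) : ext ω (2, N - 2) ≤ ext ω (1, N - 1) := by
  have h1 := fac1 hN (show 1 ≤ j by omega) hj (show 1 ≤ k by omega) hk' h (x := 2) (by omega) hk1
  have h2 := col_le hN hj1 hj ω
  have h3 := FZ.lpp_right' (ext ω) 1 (N - 2)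
  have h4 := FZ.lpp_up' (ext ω) 2 (N - 2)
  rw [show N - 2 + 1 = N - 1 by omega] at h4
  rw [show 2 - 1 = 1 by omega, Finset.sum_range_one] at h1
  norm_num at h1 h3
  linarith

end Pool.Agent.FX.HK
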