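import Pool.Agent.H.MP_f13560_pr.HK.Fac

/-!
# `0 ≤ U k` in the cone of the path
-/

set_option autoImplicit false

open MeasureTheory ProbabilityTheory

namespace Pool.Agent.FX.HK

variable {N j k : ℕ} {ω : Env N}

/-- the sums of the positive parts -/
private noncomputable def MM (N j : ℕ) (ω : Env N) (x : ℕ) : ℝ :=
  ∑ i ∈ Finset.range x, max (U N j ω (i + 1)) 0

private lemma MM_succ (ω : Env N) (x : ℕ) :
    MM N j ω (x + 1) = MM N j ω x + max (U N j ω (x + 1)) 0 := by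
  unfold MM; rw [Finset.sum_range_succ]

private lemma ellU (ω : Env N) (x : ℕ) :
    (ext ω (1, N - 1) + et N j ω) + ∑ i ∈ Finset.range x, ext ω (i + 2, N - 1) -
      ∑ i ∈ Finset.range (x + 1), ext ω (i, N) =
      MM N j ω (x + 1) - max (-U N j ω (x + 1)) 0 := by
  induction x with
  | zero =>
    have h2 := FZ.pos_sub_neg (U N j ω 1)
    have h3 : U N j ω 1 = ext ω (1, N - 1) + et N j ω - ext ω (0, N) := by rw [U]
    have h4 : MM N j ω 0 = 0 := by simp [MM]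
    rw [MM_succ, h4, Finset.sum_range_zero, Finset.sum_range_one]
    simp only [Nat.zero_add]
    linarith
  | succ x ih =>
    have h1 : U N j ω (x + 2) = ext ω (x + 2, N - 1) - ext ω (x + 1, N) -
        max (-U N j ω (x + 1)) 0 := by rw [U]
    have h2 := FZ.pos_sub_neg (U N j ω (x + 2))
    rw [Finset.sum_range_succ, Finset.sum_range_succ (fun i => ext ω (i, N)) (x + 1),
      MM_succ ω (x + 1)]
    rw [show x + 1 + 1 = x + 2 by omega]
    linarith

private lemma cone_ellU (hN : 2 ≤ N) (hj1 : 1 ≤ j) (hj : j ≤ N) (hk1 : 1 ≤ k) (hk' : k ≤ N)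
    (h : ω ∈ cone N (hk N j k)) {x : ℕ} (hx : x + 1 ≤ N) :
    MM N j ω (x + 1) - max (-U N j ω (x + 1)) 0 ≤ MM N j ω k - max (-U N j ω k) 0 := by
  obtain ⟨m, rfl⟩ : ∃ m, k = m + 1 := ⟨k - 1, by omega⟩
  rw [← ellU ω x, ← ellU ω m]
  have h2 := fac2 hN hj1 hj hk1 hk' h hx
  have h3 := col_run hN hj1 hj ω (x := x + 1) (by omega)
  rw [Nat.add_sub_cancel] at h2 h3
  linarith

private lemma MM_le (hN : 2 ≤ N) (hj1 : 1 ≤ j) (hj : j ≤ N) (hk1 : 1 ≤ k) (hk' : k ≤ N)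
    (h : ω ∈ cone N (hk N j k)) {x : ℕ} (hx : x ≤ N) :
    MM N j ω x ≤ MM N j ω k - max (-U N j ω k) 0 := by
  induction x with
  | zero =>
    obtain ⟨m, rfl⟩ : ∃ m, k = m + 1 := ⟨k - 1, by omega⟩
    rw [← ellU ω m]
    have h2 := fac2 hN hj1 hj hk1 hk' h (x := 0) (by omega)
    rw [Nat.add_sub_cancel, Finset.sum_range_zero] at h2
    have h4 : MM N j ω 0 = 0 := by simp [MM]
    rw [h4]
    linarith
  | succ x ih =>
    have i := ih (by omega)
    rcases le_total (U N j ω (x + 1)) 0 with h0 | h0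
    · rw [MM_succ, max_eq_right h0, add_zero]; exact i
    · have := cone_ellU hN hj1 hj hk1 hk' h hx
      rw [max_eq_right (show -U N j ω (x + 1) ≤ 0 by linarith), sub_zero] at this
      exact this

/-- `0 ≤ U k`. As `FZ.u_nonneg`: with `M x = ∑ i ∈ range x, (U (i + 1))⁺` one has for `x ≤ N`
`a1' + a 2 + ... + a x - (b 0 + ... + b (x - 1)) = M x - (U x)⁻` (`FZ.ell`), which for `x ≤ N` is at most `M k - (U k)⁻`
(`col_run`, `fac2`; for `x = 0` `fac2`), hence `M x ≤ M k - (U k)⁻` for all `x ≤ N`; `x = k - 1` gives the claim. -/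
theorem U_nonneg (hN : 2 ≤ N) (hj1 : 1 ≤ j) (hj : j ≤ N) (hk1 : 1 ≤ k) (hk' : k ≤ N)
    (h : ω ∈ cone N (hk N j k)) : 0 ≤ U N j ω k := by
  obtain ⟨m, rfl⟩ : ∃ m, k = m + 1 := ⟨k - 1, by omega⟩
  have h1 := MM_le hN hj1 hj hk1 hk' h (x := m) (by omega)
  rw [MM_succ] at h1
  have h2 := FZ.pos_sub_neg (U N j ω (m + 1))
  linarith

end Pool.Agent.FX.HK
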