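import Pool.Agent.H.MP_f13560_pr.HK.Fac

/-!
# `0 ≤ W k` in the cone of the path
-/

set_option autoImplicit false

open MeasureTheory ProbabilityTheory

namespace Pool.Agent.FX.HK

variable {N j k : ℕ} {ω : Env N}

private noncomputable def FacW_M (N : ℕ) (ω : Env N) (y : ℕ) : ℝ :=
  ∑ i ∈ Finset.range y, max (W N ω (i + 2)) 0

private theorem FacW_M_succ (N : ℕ) (ω : Env N) (y : ℕ) :
    FacW_M N ω (y + 1) = FacW_M N ω y + max (W N ω (y + 2)) 0 := by
  unfold FacW_M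
  rw [Finset.sum_range_succ]

private theorem FacW_ell (N : ℕ) (ω : Env N) (y : ℕ) :
    ∑ i ∈ Finset.range y, ext ω (i + 2, N - 1) - ∑ i ∈ Finset.range y, ext ω (i + 1, N) =
      FacW_M N ω y - max (-W N ω (y + 1)) 0 := by
  induction y with
  | zero => simp [FacW_M, W]
  | succ y ih =>
    rw [Finset.sum_range_succ, Finset.sum_range_succ, FacW_M_succ]
    have h1 : W N ω (y + 2) = ext ω (y + 2, N - 1) - ext ω (y + 1, N) -
        max (-W N ω (y + 1)) 0 := rfl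
    have h2 := Pool.Agent.FZ.pos_sub_neg (W N ω (y + 2))
    have h3 : y + 1 + 1 = y + 2 := rfl
    rw [h3]
    linarith

private theorem FacW_cone (hN : 2 ≤ N) (hj1 : 1 ≤ j) (hj : j ≤ N) (hk' : k + 1 ≤ N)
    (h : ω ∈ cone N (hk N j (k + 1))) {y : ℕ} (hy : y + 1 ≤ N) :
    FacW_M N ω y - max (-W N ω (y + 1)) 0 ≤ FacW_M N ω k - max (-W N ω (k + 1)) 0 := by
  rw [← FacW_ell N ω y, ← FacW_ell N ω k]
  have h1 := fac2 hN hj1 hj (by omega : 1 ≤ k + 1) hk' h hy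
  have h2 := col_run hN hj1 hj ω (by omega : 1 ≤ y + 1)
  rw [Nat.add_sub_cancel] at h1 h2
  rw [Finset.sum_range_succ' (fun i => ext ω (i, N)) y,
    Finset.sum_range_succ' (fun i => ext ω (i, N)) k] at h1
  linarith

private theorem FacW_M_le (hN : 2 ≤ N) (hj1 : 1 ≤ j) (hj : j ≤ N) (hk' : k + 1 ≤ N)
    (h : ω ∈ cone N (hk N j (k + 1))) {y : ℕ} (hy : y + 1 ≤ N) :
    FacW_M N ω y ≤ FacW_M N ω k - max (-W N ω (k + 1)) 0 := by
  induction y with
  | zero =>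
    have := FacW_cone hN hj1 hj hk' h (y := 0) (by omega)
    simpa [FacW_M, W] using this
  | succ y ih =>
    have i := ih (by omega)
    rcases le_total (W N ω (y + 2)) 0 with h0 | h0
    · rw [FacW_M_succ, max_eq_right h0, add_zero]
      exact i
    · have h1 := FacW_cone hN hj1 hj hk' h hy
      have h3 : y + 1 + 1 = y + 2 := rfl
      rw [h3, max_eq_right (show -W N ω (y + 2) ≤ 0 by linarith), sub_zero] at h1
      exact h1

/-- `0 ≤ W k`: the same with `W` and `x ≥ 1`: `a 2 + ... + a x - (b 1 + ... + b (x - 1)) = M x - (W x)⁻`,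
`M x = ∑ i ∈ range x, (W (i + 1))⁺`. -/
theorem W_nonneg (hN : 2 ≤ N) (hj1 : 1 ≤ j) (hj : j ≤ N) (hk1 : 2 ≤ k) (hk' : k ≤ N)
    (h : ω ∈ cone N (hk N j k)) : 0 ≤ W N ω k := by
  obtain ⟨m, rfl⟩ : ∃ m, k = m + 2 := ⟨k - 2, by omega⟩
  have h1 := FacW_M_le (k := m + 1) hN hj1 hj hk' h (y := m) (by omega)
  rw [FacW_M_succ] at h1
  have h2 := Pool.Agent.FZ.pos_sub_neg (W N ω (m + 2))
  have h3 : m + 1 + 1 = m + 2 := rfl
  rw [h3] at h1
  linarith

end Pool.Agent.FX.HK
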