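import Pool.Agent.H.MP_f13560_pr.HK.Defs

/-!
# Every path through `(1, N - 1)` is one of the paths
-/

set_option autoImplicit false

open MeasureTheory ProbabilityTheory

namespace Pool.Agent.FX.HK

variable {N j k : ℕ}

private theorem Pth_mono {v : ℕ → Fin (N + 1) × Fin (N + 1)} (hv : IsPath N v) {i j : ℕ}
    (hij : i ≤ j) (hj : j ≤ 2 * N) :
    (v i).1.val ≤ (v j).1.val ∧ (v i).2.val ≤ (v j).2.val := by
  induction j with
  | zero =>
    obtain rfl : i = 0 := by omega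
    exact ⟨le_rfl, le_rfl⟩
  | succ j ih =>
    rcases Nat.lt_or_ge i (j + 1) with h | h
    · obtain ⟨h1, h2⟩ := ih (by omega) (by omega)
      rcases hv.step j (by omega) with ⟨a, b⟩ | ⟨a, b⟩
      · rw [a, b]
        omega
      · rw [a, b]
        omega
    · obtain rfl : i = j + 1 := by omega
      exact ⟨le_rfl, le_rfl⟩

private theorem Pth_ext {a b : Fin (N + 1) × Fin (N + 1)} (h1 : a.1.val = b.1.val)
    (h2 : a.2.val = b.2.val) : a = b := Prod.ext (Fin.ext h1) (Fin.ext h2)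

/-- `N - j` is the last level on which the path is in column `0`, `N + k` the first level on which it is in row `N`. -/
theorem hk_of (hN : 2 ≤ N) {v : ℕ → Fin (N + 1) × Fin (N + 1)} (hv : IsPath N v)
    (h : (v N).1.val = 1) :
    ∃ j k, 1 ≤ j ∧ j ≤ N ∧ 1 ≤ k ∧ k ≤ N ∧ ∀ i ≤ 2 * N, v i = hk N j k i := by
  classical
  have hs := hv.stop
  have h0 : (v 0).1.val = 0 := by rw [hv.start]; rfl
  -- the first level in a column `≥ 1`
  have hex1 : ∃ i, (v i).1.val ≠ 0 := ⟨N, by omega⟩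
  obtain ⟨m, hm, hmin⟩ : ∃ m, (v m).1.val ≠ 0 ∧ ∀ i < m, ¬ (v i).1.val ≠ 0 :=
    ⟨Nat.find hex1, Nat.find_spec hex1, fun i hi => Nat.find_min hex1 hi⟩
  have hm0 : m ≠ 0 := by
    rintro rfl
    exact hm h0
  have hmN : m ≤ N := by
    by_contra hcon
    exact hmin N (by omega) (by omega)
  -- the first level in row `N`
  have hex2 : ∃ i, N ≤ i ∧ (v i).2.val = N := ⟨2 * N, by omega, by rw [hs]; rfl⟩
  obtain ⟨r, hr, hrmin⟩ : ∃ m, (N ≤ m ∧ (v m).2.val = N) ∧ ∀ i < m, ¬ (N ≤ i ∧ (v i).2.val = N) :=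
    ⟨Nat.find hex2, Nat.find_spec hex2, fun i hi => Nat.find_min hex2 hi⟩
  have hr2 : r ≤ 2 * N := by
    by_contra hcon
    exact hrmin (2 * N) (by omega) ⟨by omega, by rw [hs]; rfl⟩
  have aN := hv.antidiag (k := N) (by omega)
  have hrN : r ≠ N := by
    rintro rfl
    omega
  refine ⟨N + 1 - m, r - N, by omega, by omega, by omega, by omega, fun i hi => ?_⟩
  have ai := hv.antidiag (k := i) hi
  have d := (v i).2.isLt
  unfold hk
  split_ifs with c1 c2 c3
  · have e := hmin i (by omega)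
    refine Pth_ext ?_ ?_ <;> simp only [] <;> omega
  · have b1 := Pth_mono hv (i := m) (j := i) (by omega) (by omega)
    have b2 := Pth_mono hv (i := i) (j := N) (by omega) (by omega)
    refine Pth_ext ?_ ?_ <;> simp only [] <;> omega
  · have b1 := Pth_mono hv (i := N) (j := i) (by omega) (by omega)
    have e : (v i).2.val ≠ N := fun h => hrmin i (by omega) ⟨by omega, h⟩
    refine Pth_ext ?_ ?_ <;> simp only [] <;> omega
  · have b1 := Pth_mono hv (i := r) (j := i) (by omega) (by omega)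
    refine Pth_ext ?_ ?_ <;> simp only [] <;> omega

theorem hk_one (hN : 2 ≤ N) (hk1 : 1 ≤ k) (hk' : k ≤ N) : ∀ i ≤ 2 * N, hk N 1 k i = FZ.pk N k i := by
  intro i hi
  unfold hk FZ.pk
  split_ifs <;> refine Pth_ext ?_ ?_ <;> simp only [] <;> omega

/-- The reflection of `hk N j 1` is `FZ.pk N j`. -/
theorem hk_rev (hN : 2 ≤ N) (hj1 : 1 ≤ j) (hj : j ≤ N) : ∀ i ≤ 2 * N,
    hk N j 1 i = ((FZ.pk N j (2 * N - i)).2.rev, (FZ.pk N j (2 * N - i)).1.rev) := by
  intro i hi
  unfold hk FZ.pk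
  split_ifs <;> refine Pth_ext ?_ ?_ <;> simp only [Fin.val_rev] <;> omega

end Pool.Agent.FX.HK
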