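import Pool.Agent.H.MP_f13560_pr.HK.Main
import Pool.Agent.H.MP_f13560_pr.HK.Pth

/-!
# Every path through `(1, N - 1)` or `(N - 1, 1)`
-/

set_option autoImplicit false

open MeasureTheory ProbabilityTheory

namespace Pool.Agent.FX.HK

variable {N : ℕ}

theorem through_one (hN : 2 ≤ N) {v : ℕ → Fin (N + 1) × Fin (N + 1)} (hv : IsPath N v)
    (h : (v N).1.val = 1) : law N (cone N v) < law N (cone N (corner N)) := by
  obtain ⟨j, k, hj1, hj, hk1, hk', he⟩ := hk_of hN hv h
  rw [NB.cone_congr he]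
  rcases Nat.lt_or_ge 1 j with h1 | h1
  · rcases Nat.lt_or_ge 1 k with h2 | h2
    · exact hk_lt hN h1 hj h2 hk'
    · obtain rfl : k = 1 := by omega
      rw [NB.cone_congr (hk_rev hN hj1 hj), NB.sym_rev]
      exact FZ.pk_lt hN hj1 hj
  · obtain rfl : j = 1 := by omega
    rw [NB.cone_congr (hk_one hN hk1 hk')]
    exact FZ.pk_lt hN hk1 hk'

/-- Every path other than the two corner paths; if `n = N + 1 ≥ 5` assume that it goes through `(1, N - 1)` or
`(N - 1, 1)`. -/
theorem allHooks (hN : 2 ≤ N) {v : ℕ → Fin (N + 1) × Fin (N + 1)} (hv : IsPath N v)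
    (h1 : ∃ k ≤ 2 * N, v k ≠ corner N k) (h2 : ∃ k ≤ 2 * N, v k ≠ (corner N k).swap)
    (h : N ≤ 3 ∨ (v N).1.val = 1 ∨ (v N).2.val = 1) :
    law N (cone N v) < law N (cone N (corner N)) := by
  have a := hv.antidiag (k := N) (by omega)
  have b1 : (v N).1.val ≠ 0 := by
    intro h0
    obtain ⟨k, hk, hne⟩ := h1
    refine hne (NB.corner_of hv (Prod.ext (Fin.ext ?_) (Fin.ext ?_)) k hk) <;>
      simp only [NB.cl] <;> omega
  have b2 : (v N).2.val ≠ 0 := by
    intro h0
    obtain ⟨k, hk, hne⟩ := h2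
    have hs := NB.corner_of (NB.sym_swap_path hv) (Prod.ext (Fin.ext ?_) (Fin.ext ?_)) k hk
    · refine hne ?_
      rw [← hs]
      rfl
    · simp only [NB.cl, Prod.fst_swap]
      omega
    · simp only [NB.cl, Prod.snd_swap]
      omega
  have h' : (v N).1.val = 1 ∨ (v N).2.val = 1 := by omega
  rcases h' with h' | h'
  · exact through_one hN hv h'
  · rw [← NB.sym_swap]
    exact through_one hN (NB.sym_swap_path hv) h'

end Pool.Agent.FX.HK
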