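import Pool.Agent.H.MP_f13560_pr.HK.Defs

/-!
# The length of the path
-/

set_option autoImplicit false

open MeasureTheory ProbabilityTheory

namespace Pool.Agent.FX.HK

variable {N j k : ℕ}

private theorem len_at (ω : Env N) {x y : ℕ} {c : Fin (N + 1) × Fin (N + 1)}
    (h : c.1.val = x ∧ c.2.val = y) : ω c = ext ω (x, y) := by
  obtain ⟨⟨a, ha⟩, ⟨b, hb⟩⟩ := c
  obtain ⟨h1, h2⟩ := h
  dsimp only at h1 h2
  subst h1
  subst h2
  rw [FZ.ext_at ω ha hb]

private theorem len_p1 {i : ℕ} (h : i + j ≤ N) :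
    (hk N j k i).1.val = 0 ∧ (hk N j k i).2.val = i := by
  simp only [hk, if_pos h, true_and]
  omega

private theorem len_p2 {i : ℕ} (h0 : 1 ≤ N) (h : N < i + j) (h' : i ≤ N) :
    (hk N j k i).1.val = 1 ∧ (hk N j k i).2.val = i - 1 := by
  simp only [hk, if_neg (show ¬ i + j ≤ N by omega), if_pos h']
  omega

private theorem len_p3 {i : ℕ} (hk1 : k ≤ N) (h : N < i) (h' : i < N + k) :
    (hk N j k i).1.val = i - (N - 1) ∧ (hk N j k i).2.val = N - 1 := by
  simp only [hk, if_neg (show ¬ i + j ≤ N by omega), if_neg (show ¬ i ≤ N by omega), if_pos h',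
    and_true]
  omega

private theorem len_p4 {i : ℕ} (hk1 : 1 ≤ k) (h : N + k ≤ i) (h' : i ≤ 2 * N) :
    (hk N j k i).1.val = i - N ∧ (hk N j k i).2.val = N := by
  simp only [hk, if_neg (show ¬ i + j ≤ N by omega), if_neg (show ¬ i ≤ N by omega),
    if_neg (show ¬ i < N + k by omega), and_true]
  omega

private theorem len_ref {f g : ℕ → ℝ} {m : ℕ} (h : ∀ i < m, g i = f (m - 1 - i)) :
    ∑ i ∈ Finset.range m, g i = ∑ i ∈ Finset.range m, f i := by
  rw [← Finset.sum_range_reflect f m]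
  exact Finset.sum_congr rfl fun i hi => h i (Finset.mem_range.1 hi)

/-- As `FZ.len_pk` (FZ/Det.lean): split `range (2 * N + 1)` at `N - j + 1`, `N + 1`, `N + k`; the column part is
`lpp (ext ω) 0 (N - 1) + ext ω (1, N - 1) + et N j ω` (induction on `j`). -/
theorem len_hk (hN : 2 ≤ N) (hj1 : 1 ≤ j) (hj : j ≤ N) (hk1 : 1 ≤ k) (hk' : k ≤ N) (ω : Env N) :
    len N (hk N j k) ω = Lam N j k ω := by
  obtain ⟨m, rfl⟩ : ∃ m, j = m + 1 := ⟨j - 1, by omega⟩
  obtain ⟨q, rfl⟩ : ∃ q, k = q + 1 := ⟨k - 1, by omega⟩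
  obtain ⟨p, hp⟩ : ∃ p, N = p + 1 + m := ⟨N - 1 - m, by omega⟩
  have h3 : ∑ i ∈ Finset.range (N + 1), ext ω (i, N) =
      ∑ i ∈ Finset.range (q + 1), ext ω (i, N) +
        ∑ i ∈ Finset.range (N - q), ext ω (q + 1 + i, N) := by
    rw [← Finset.sum_range_add (fun i => ext ω (i, N)) (q + 1) (N - q)]
    congr 2
    omega
  have s1 : ∑ i ∈ Finset.range (p + 1), ω (hk N (m + 1) (q + 1) i) =
      ∑ i ∈ Finset.range (p + 1), ext ω (0, i) :=
    Finset.sum_congr rfl fun i hi => by
      have hi' := Finset.mem_range.1 hi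
      exact len_at ω (len_p1 (by omega))
  have s2 : ∑ i ∈ Finset.range (m + 1), ω (hk N (m + 1) (q + 1) (p + 1 + i)) =
      ∑ i ∈ Finset.range (m + 1), ext ω (1, p + i) :=
    Finset.sum_congr rfl fun i hi => by
      have hi' := Finset.mem_range.1 hi
      have h := len_p2 (N := N) (j := m + 1) (k := q + 1) (i := p + 1 + i) (by omega) (by omega)
        (by omega)
      rw [show p + 1 + i - 1 = p + i by omega] at h
      exact len_at ω h
  have s3 : ∑ i ∈ Finset.range q, ω (hk N (m + 1) (q + 1) (p + 1 + (m + 1) + i)) =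
      ∑ i ∈ Finset.range q, ext ω (i + 2, N - 1) :=
    Finset.sum_congr rfl fun i hi => by
      have hi' := Finset.mem_range.1 hi
      have h := len_p3 (N := N) (j := m + 1) (k := q + 1) (i := p + 1 + (m + 1) + i) (by omega)
        (by omega) (by omega)
      rw [show p + 1 + (m + 1) + i - (N - 1) = i + 2 by omega] at h
      exact len_at ω h
  have s4 : ∑ i ∈ Finset.range (N - q), ω (hk N (m + 1) (q + 1) (p + 1 + (m + 1) + q + i)) =
      ∑ i ∈ Finset.range (N - q), ext ω (q + 1 + i, N) :=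
    Finset.sum_congr rfl fun i hi => by
      have hi' := Finset.mem_range.1 hi
      have h := len_p4 (N := N) (j := m + 1) (k := q + 1) (i := p + 1 + (m + 1) + q + i) (by omega)
        (by omega) (by omega)
      rw [show p + 1 + (m + 1) + q + i - N = q + 1 + i by omega] at h
      exact len_at ω h
  have e1 : ∑ i ∈ Finset.range m, ext ω (1, N - 2 - i) =
      ∑ i ∈ Finset.range m, ext ω (1, p + i) :=
    len_ref fun i hi => by
      rw [show N - 2 - i = p + (m - 1 - i) by omega]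
  have e2 : ∑ i ∈ Finset.range m, ext ω (0, N - 1 - i) =
      ∑ i ∈ Finset.range m, ext ω (0, p + 1 + i) :=
    len_ref fun i hi => by
      rw [show N - 1 - i = p + 1 + (m - 1 - i) by omega]
  have e3 : ∑ i ∈ Finset.range N, ext ω (0, i) = ∑ i ∈ Finset.range (p + 1), ext ω (0, i) +
      ∑ i ∈ Finset.range m, ext ω (0, p + 1 + i) := by
    rw [← Finset.sum_range_add (fun i => ext ω (0, i)) (p + 1) m, ← hp]
  have e4 : ext ω (1, N - 1) = ext ω (1, p + m) := by
    rw [show N - 1 = p + m by omega]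
  unfold len Lam et
  rw [h3, lpp_zero_left, show N - 1 + 1 = N by omega,
    show 2 * N + 1 = p + 1 + (m + 1) + q + (N - q) by omega, Finset.sum_range_add,
    Finset.sum_range_add, Finset.sum_range_add, s1, s2, s3, s4, Nat.add_sub_cancel,
    Nat.add_sub_cancel, Finset.sum_sub_distrib, e1, e2, e3, e4, Finset.sum_range_succ _ m]
  ring

end Pool.Agent.FX.HK
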