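import Pool.Agent.H.MP_f13560_pr.HK.Defs

/-!
# The map of the second piece preserves volume and the sum
-/

set_option autoImplicit false

open MeasureTheory ProbabilityTheory

namespace Pool.Agent.FX.HK

variable {N j k : ℕ}

private lemma MPE_up (hN : 1 ≤ N) (ω : Env N) (t : ℝ) {x y : ℕ} (hx : x ≤ N) (hy : y ≤ N)
    (h : ¬ (x = 1 ∧ y = N - 1)) :
    ext (Function.update ω (FZ.cA N 1) t) (x, y) = ext ω (x, y) := by
  rw [FZ.ext_at _ (by omega) (by omega), FZ.ext_at ω (by omega) (by omega), Function.update_of_ne]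
  intro e
  apply h
  have e1 := congrArg (fun c => c.1.val) e
  have e2 := congrArg (fun c => c.2.val) e
  simp only [FZ.cA] at e1 e2
  omega

private lemma MPE_up1 (hN : 1 ≤ N) (ω : Env N) (t : ℝ) :
    ext (Function.update ω (FZ.cA N 1) t) (1, N - 1) = t := by
  rw [← FZ.at_cA _ hN, Function.update_self]

private lemma MPE_et_congr {ω ω' : Env N}
    (h : ∀ i < j - 1, ext ω' (1, N - 2 - i) = ext ω (1, N - 2 - i) ∧
      ext ω' (0, N - 1 - i) = ext ω (0, N - 1 - i)) : et N j ω' = et N j ω := by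
  unfold et
  refine Finset.sum_congr rfl fun i hi => ?_
  obtain ⟨h1, h2⟩ := h i (Finset.mem_range.1 hi)
  rw [h1, h2]

private lemma MPE_et_up (hN : 2 ≤ N) (ω : Env N) (t : ℝ) :
    et N j (Function.update ω (FZ.cA N 1) t) = et N j ω := by
  refine MPE_et_congr fun i _ => ⟨?_, ?_⟩
  · exact MPE_up (by omega) ω t (by omega) (by omega) (by omega)
  · exact MPE_up (by omega) ω t (by omega) (by omega) (by omega)

private lemma MPE_et_Phi (hN : 2 ≤ N) (hk1 : 2 ≤ k) (ω : Env N) :
    et N j (FZ.Phi N k ω) = et N j ω := by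
  refine MPE_et_congr fun i _ => ⟨?_, ?_⟩
  · rw [FZ.ext_Phi ω (by omega) (by omega), if_neg (by omega), if_neg (by omega), if_neg (by omega),
      if_neg (by omega)]
  · rw [FZ.ext_Phi ω (by omega) (by omega), if_neg (by omega), if_neg (by omega), if_neg (by omega),
      if_neg (by omega)]

private lemma MPE_et_meas : Measurable (et N j) := by
  unfold et
  refine Finset.measurable_sum _ fun i _ => ?_
  have h : ∀ c : ℕ × ℕ, Measurable fun ω : Env N => ext ω c := by
    intro c
    unfold ext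
    split_ifs
    · exact measurable_pi_apply _
    · exact measurable_const
  exact (h _).sub (h _)

private lemma MPE_u (hN : 2 ≤ N) (ω : Env N) (x : ℕ) (hx : x ≤ N) :
    FZ.u N (Function.update ω (FZ.cA N 1) (ω (FZ.cA N 1) + et N j ω)) x = U N j ω x := by
  induction x with
  | zero => rfl
  | succ x ih =>
    rw [FZ.u_succ _ hx, ih (by omega), MPE_up (by omega) ω _ (by omega) le_rfl (by omega)]
    cases x with
    | zero =>
      rw [zero_add, MPE_up1 (by omega), FZ.at_cA ω (by omega)]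
      simp [U]
    | succ x =>
      rw [MPE_up (by omega) ω _ hx (by omega) (by omega)]
      rfl

private lemma MPE_eq (hN : 2 ≤ N) (hk1 : 2 ≤ k) (hk' : k ≤ N) (ω : Env N) :
    PhiE N j k ω = Function.update
      (FZ.Phi N k (Function.update ω (FZ.cA N 1) (ω (FZ.cA N 1) + et N j ω))) (FZ.cA N 1)
      (FZ.Phi N k (Function.update ω (FZ.cA N 1) (ω (FZ.cA N 1) + et N j ω)) (FZ.cA N 1) +
        -et N j (FZ.Phi N k (Function.update ω (FZ.cA N 1) (ω (FZ.cA N 1) + et N j ω)))) := by
  rw [MPE_et_Phi hN hk1, MPE_et_up hN]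
  funext c
  have hu := MPE_u (j := j) hN ω
  have hm : min 1 N = 1 := by omega
  by_cases hc : c = FZ.cA N 1
  · subst hc
    rw [Function.update_self]
    have e1 : (FZ.cA N 1).1.val = 1 := hm
    have e2 : (FZ.cA N 1).2.val = N - 1 := rfl
    unfold PhiE FZ.Phi
    rw [if_pos ⟨e2, by omega, by omega⟩, if_pos ⟨e2, by omega, by omega⟩, Function.update_self, e1,
      hu 1 (by omega)]
    ring
  · rw [Function.update_of_ne hc]
    unfold PhiE FZ.Phi
    rw [Function.update_of_ne hc, hu c.1.val (by omega), hu k hk']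

/-- Let `S ω = Function.update ω (FZ.cA N 1) (ω (FZ.cA N 1) + et N j ω)` and
`S' ω = Function.update ω (FZ.cA N 1) (ω (FZ.cA N 1) + (-et N j ω))`; both preserve volume (`FZ.shear1`, `et` does not depend on
`(1, N - 1)`). `FZ.u N (S ω) x = U N j ω x` for `x ≤ N`, `et` is not changed by `S` and `FZ.Phi N k`, and
`PhiE N j k ω = S' (FZ.Phi N k (S ω))`. `FZ.Phi_mp`. -/
theorem PhiE_mp (hN : 2 ≤ N) (hj1 : 1 ≤ j) (hj : j ≤ N) (hk1 : 2 ≤ k) (hk' : k ≤ N) :
    MeasurePreserving (PhiE N j k) volume volume := by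
  have h1 := FZ.shear1 (FZ.cA N 1) (φ := et N j) MPE_et_meas (fun ω t => MPE_et_up hN ω t)
  have h2 := FZ.Phi_mp (N := N) (k := k) (by omega) (by omega) hk'
  have h3 := FZ.shear1 (FZ.cA N 1) (φ := fun ω => -et N j ω) MPE_et_meas.neg
    (fun ω t => by rw [MPE_et_up hN ω t])
  have h4 := h3.comp (h2.comp h1)
  have e : PhiE N j k = (fun ω : Env N => Function.update ω (FZ.cA N 1)
      (ω (FZ.cA N 1) + -et N j ω)) ∘ (FZ.Phi N k ∘ fun ω : Env N =>
        Function.update ω (FZ.cA N 1) (ω (FZ.cA N 1) + et N j ω)) := by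
    funext ω
    exact MPE_eq hN hk1 hk' ω
  rw [e]
  exact h4

/-- As `FZ.sum_Phi` (FZ/Main.lean), with `U` instead of `u`. -/
theorem PhiE_sum (hN : 2 ≤ N) (hk1 : 2 ≤ k) (hk' : k ≤ N) (ω : Env N) :
    ∑ c, PhiE N j k ω c = ∑ c, ω c := by
  set p : ℕ → ℝ := fun x => if 1 ≤ x ∧ x < k then max (U N j ω x) 0 else
    if x = k then U N j ω k else 0 with hp
  set q : ℕ → ℝ := fun x => if 1 ≤ x ∧ x < k then max (U N j ω x) 0 else
    if x = 0 then U N j ω k else 0 with hq
  have h : ∀ c, PhiE N j k ω c = ω c + ((if c.2.val = N then q c.1.val else 0) -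
      (if c.2.val = N - 1 then p c.1.val else 0)) := by
    intro c
    simp only [PhiE, hp, hq]
    split_ifs <;> first | (exfalso; omega) | ring
  have e : ∀ x : ℕ, q x - p x = (if x = 0 then U N j ω k else 0) -
      (if x = k then U N j ω k else 0) := by
    intro x
    simp only [hp, hq]
    split_ifs <;> first | (exfalso; omega) | ring
  rw [Finset.sum_congr rfl fun c _ => h c, Finset.sum_add_distrib, Fintype.sum_prod_type
    (f := fun c : Fin (N + 1) × Fin (N + 1) => (if c.2.val = N then q c.1.val else 0) -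
      (if c.2.val = N - 1 then p c.1.val else 0))]
  have : ∀ x : Fin (N + 1), ∑ y : Fin (N + 1), ((if y.val = N then q x.val else 0) -
      (if y.val = N - 1 then p x.val else 0)) = (if x.val = 0 then U N j ω k else 0) -
      (if x.val = k then U N j ω k else 0) := by
    intro x
    rw [Finset.sum_sub_distrib, FZ.sum_row (by omega), FZ.sum_row (by omega), e]
  rw [Finset.sum_congr rfl fun x _ => this x, Finset.sum_sub_distrib, FZ.sum_row (by omega),
    FZ.sum_row (by omega)]
  ring

end Pool.Agent.FX.HK
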