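import Pool.Agent.H.MP_f13560_pr.HK.Defs

/-!
# The map of the first piece preserves volume and the sum
-/

set_option autoImplicit false

open MeasureTheory ProbabilityTheory

namespace Pool.Agent.FX.HK

variable {N k : ℕ}

/-- the cyclic shift of the columns -/
private def MPR_s (N : ℕ) : Equiv.Perm (Fin (N + 1) × Fin (N + 1)) :=
  Equiv.prodCongr (finRotate (N + 1)) (Equiv.refl _)

private theorem MPR_lt {x y : ℕ} (hx : x < N) (hx' : x < N + 1) (hy : y < N + 1) :
    MPR_s N (⟨x, hx'⟩, ⟨y, hy⟩) = (⟨x + 1, Nat.succ_lt_succ hx⟩, ⟨y, hy⟩) := by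
  unfold MPR_s
  rw [Equiv.prodCongr_apply]
  simp only [Prod.map, Equiv.refl_apply]
  rw [finRotate_of_lt hx]

private theorem MPR_last {y : Fin (N + 1)} (hx' : N < N + 1) :
    MPR_s N (⟨N, hx'⟩, y) = (⟨0, N.succ_pos⟩, y) := by
  unfold MPR_s
  rw [Equiv.prodCongr_apply]
  simp only [Prod.map, Equiv.refl_apply]
  rw [finRotate_last']

private theorem MPR_W (ω : Env N) : ∀ x, x < N →
    W N ω (x + 1) = FZ.u N (fun c => ω (MPR_s N c)) x := by
  intro x
  induction x with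
  | zero => intro _; rfl
  | succ x ih =>
    intro hx
    have h1 := ih (by omega)
    show ext ω (x + 2, N - 1) - ext ω (x + 1, N) - max (-W N ω (x + 1)) 0 =
      ω (MPR_s N (FZ.cA N (x + 1))) - ω (MPR_s N (FZ.cB N x)) -
        max (-FZ.u N (fun c => ω (MPR_s N c)) x) 0
    have e1 : FZ.cA N (x + 1) = (⟨x + 1, by omega⟩, ⟨N - 1, by omega⟩) := by
      unfold FZ.cA
      simp only [Prod.mk.injEq, Fin.mk.injEq, and_true]
      omega
    have e2 : FZ.cB N x = (⟨x, by omega⟩, ⟨N, by omega⟩) := by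
      unfold FZ.cB
      simp only [Prod.mk.injEq, Fin.mk.injEq, and_true]
      omega
    rw [h1, e1, e2, MPR_lt hx, MPR_lt (by omega)]
    unfold ext
    rw [dif_pos ⟨by show x + 2 < N + 1; omega, by show N - 1 < N + 1; omega⟩,
      dif_pos ⟨by show x + 1 < N + 1; omega, by show N < N + 1; omega⟩]

private theorem MPR_eq (hN : 2 ≤ N) (hk1 : 2 ≤ k) (hk' : k ≤ N) (ω : Env N)
    (c : Fin (N + 1) × Fin (N + 1)) :
    Er N k ω (MPR_s N c) = FZ.Phi N (k - 1) (fun c => ω (MPR_s N c)) c := by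
  obtain ⟨⟨x, hx⟩, y⟩ := c
  have hWk : W N ω k = FZ.u N (fun c => ω (MPR_s N c)) (k - 1) := by
    have h1 := MPR_W ω (k - 1) (by omega)
    rwa [show k - 1 + 1 = k by omega] at h1
  rcases Nat.lt_or_ge x N with h | h
  · have hW := MPR_W ω x h
    obtain ⟨y, hy⟩ := y
    have hs := MPR_lt h hx hy
    unfold Er FZ.Phi
    simp only [hs, hW, hWk]
    split_ifs <;> first | rfl | (exfalso; omega)
  · have hxN : x = N := by omega
    subst hxN
    have hs := MPR_last (N := x) (y := y) hx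
    unfold Er FZ.Phi
    simp only [hs]
    split_ifs <;> first | rfl | (exfalso; omega) | tauto

private theorem MPR_comp (hN : 2 ≤ N) (hk1 : 2 ≤ k) (hk' : k ≤ N) :
    Er N k = (fun η : Env N => fun c => η ((MPR_s N).symm c)) ∘
      (FZ.Phi N (k - 1) ∘ (fun ω : Env N => fun c => ω (MPR_s N c))) := by
  funext ω c
  have h := MPR_eq hN hk1 hk' ω ((MPR_s N).symm c)
  rw [Equiv.apply_symm_apply] at h
  exact h

/-- Let `σ (x, y) = (x + 1, y)` (cyclic, `finRotate`) on the cells and `R ω = fun c => ω (σ c)` (volume preserving, `FZ.perm1`).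
Then `W N ω (x + 1) = FZ.u N (R ω) x` for `x < N` and `Er N k ω c = FZ.Phi N (k - 1) (R ω) (σ.symm c)`. `FZ.Phi_mp` for
`k - 1 ≥ 1`. -/
theorem Er_mp (hN : 2 ≤ N) (hk1 : 2 ≤ k) (hk' : k ≤ N) :
    MeasurePreserving (Er N k) volume volume := by
  rw [MPR_comp hN hk1 hk']
  exact (FZ.perm1 (MPR_s N).symm).comp
    ((FZ.Phi_mp (N := N) (k := k - 1) (by omega) (by omega) (by omega)).comp (FZ.perm1 (MPR_s N)))

/-- As `FZ.sum_Phi` (FZ/Main.lean), or from it with `σ`. -/
theorem Er_sum (hN : 2 ≤ N) (hk1 : 2 ≤ k) (hk' : k ≤ N) (ω : Env N) :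
    ∑ c, Er N k ω c = ∑ c, ω c := by
  have h1 : ∑ c, Er N k ω (MPR_s N c) = ∑ c, Er N k ω c := Equiv.sum_comp (MPR_s N) _
  have h2 : ∑ c, ω (MPR_s N c) = ∑ c, ω c := Equiv.sum_comp (MPR_s N) _
  rw [← h1, ← h2, Finset.sum_congr rfl fun c _ => MPR_eq hN hk1 hk' ω c]
  exact FZ.sum_Phi (N := N) (k := k - 1) (by omega) (by omega) (by omega) _

end Pool.Agent.FX.HK
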