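import Pool.Agent.H.MP_f13560_pr.HK.Defs

/-!
# The image of the second piece
-/

set_option autoImplicit false

open MeasureTheory ProbabilityTheory

namespace Pool.Agent.FX.HK

variable {N j k : ℕ} {ω : Env N}

private theorem NotRL_ext {x y : ℕ} (hx : x ≤ N) (hy : y ≤ N) :
    ext (PhiE N j k ω) (x, y) =
      if y = N - 1 ∧ 1 ≤ x ∧ x < k then ext ω (x, y) - max (U N j ω x) 0
      else if y = N - 1 ∧ x = k then ext ω (x, y) - U N j ω k
      else if y = N ∧ 1 ≤ x ∧ x < k then ext ω (x, y) + max (U N j ω x) 0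
      else if y = N ∧ x = 0 then ext ω (x, y) + U N j ω k
      else ext ω (x, y) := by
  rw [Pool.Agent.FZ.ext_at _ (by omega) (by omega), Pool.Agent.FZ.ext_at _ (by omega) (by omega)]
  rfl

/-- Let `x ≥ 2` be minimal with `0 ≤ U x`, so `x ≤ k`, and `ω' = PhiE N j k ω`. The condition of `RL` fails for `i = x - 1`:
`b' l = b l` for `1 ≤ l < x` (`U l < 0`), `a' l = a l` for `2 ≤ l < x`, `a' x = a x - U x`, and `U (l + 1) = a (l + 1) - b l + U l`
for `1 ≤ l < x`, so `∑ b' - ∑ a' = U 1 < 0`. -/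
theorem PhiE_not (hN : 2 ≤ N) (hk1 : 2 ≤ k) (hk' : k ≤ N) (hU : U N j ω 1 < 0)
    (hk0 : 0 ≤ U N j ω k) : PhiE N j k ω ∉ RL N k := by
  classical
  have hex : ∃ x, 2 ≤ x ∧ 0 ≤ U N j ω x := ⟨k, hk1, hk0⟩
  obtain ⟨x, hxdef⟩ : ∃ x, x = Nat.find hex := ⟨_, rfl⟩
  have hx := Nat.find_spec hex
  have hxk : Nat.find hex ≤ k := Nat.find_min' hex ⟨hk1, hk0⟩
  have hmin : ∀ m < Nat.find hex, ¬ (2 ≤ m ∧ 0 ≤ U N j ω m) := fun m hm => Nat.find_min hex hm
  rw [← hxdef] at hx hxk hmin
  obtain ⟨n, rfl⟩ : ∃ n, x = n + 2 := ⟨x - 2, by omega⟩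
  have hneg : ∀ l, 1 ≤ l → l < n + 2 → U N j ω l < 0 := by
    intro l h1 h2
    rcases Nat.lt_or_ge l 2 with h3 | h3
    · obtain rfl : l = 1 := by omega
      exact hU
    · by_contra h4
      exact hmin l h2 ⟨h3, not_lt.1 h4⟩
  have hsum : ∀ m, m ≤ n + 1 → ∑ l ∈ Finset.range m, (ext ω (l + 2, N - 1) - ext ω (l + 1, N)) =
      U N j ω (m + 1) - U N j ω 1 := by
    intro m
    induction m with
    | zero =>
      intro _
      rw [Finset.range_zero, Finset.sum_empty, zero_add, sub_self]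
    | succ m ih =>
      intro hm
      rw [Finset.sum_range_succ, ih (by omega)]
      have h1 : U N j ω (m + 1 + 1) =
          ext ω (m + 2, N - 1) - ext ω (m + 1, N) - max (-U N j ω (m + 1)) 0 := rfl
      have h2 := hneg (m + 1) (by omega) (by omega)
      rw [h1, max_eq_left (by linarith)]
      ring
  intro h
  have h1 := h (n + 1) (by omega)
  have h2 : ∑ l ∈ Finset.range (n + 1), ext (PhiE N j k ω) (l + 1, N) =
      ∑ l ∈ Finset.range (n + 1), ext ω (l + 1, N) := by
    refine Finset.sum_congr rfl fun l hl => ?_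
    have hl' := Finset.mem_range.1 hl
    rw [NotRL_ext (by omega) le_rfl, if_neg (by omega), if_neg (by omega),
      if_pos ⟨rfl, by omega, by omega⟩, max_eq_right (hneg (l + 1) (by omega) (by omega)).le,
      add_zero]
  have h3 : ∑ l ∈ Finset.range (n + 1), ext (PhiE N j k ω) (l + 2, N - 1) =
      ∑ l ∈ Finset.range (n + 1), ext ω (l + 2, N - 1) - U N j ω (n + 2) := by
    rw [Finset.sum_range_succ, Finset.sum_range_succ]
    have e1 : ∑ l ∈ Finset.range n, ext (PhiE N j k ω) (l + 2, N - 1) =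
        ∑ l ∈ Finset.range n, ext ω (l + 2, N - 1) := by
      refine Finset.sum_congr rfl fun l hl => ?_
      have hl' := Finset.mem_range.1 hl
      rw [NotRL_ext (by omega) (by omega), if_pos ⟨rfl, by omega, by omega⟩,
        max_eq_right (hneg (l + 2) (by omega) (by omega)).le, sub_zero]
    have e2 : ext (PhiE N j k ω) (n + 2, N - 1) = ext ω (n + 2, N - 1) - U N j ω (n + 2) := by
      rw [NotRL_ext (by omega) (by omega)]
      rcases Nat.lt_or_ge (n + 2) k with h4 | h4
      · rw [if_pos ⟨rfl, by omega, h4⟩, max_eq_left hx.2]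
      · have h5 : n + 2 = k := by omega
        rw [if_neg (by omega), if_pos ⟨rfl, h5⟩, h5]
    rw [e1, e2]
    ring
  have h4 := hsum (n + 1) le_rfl
  rw [Finset.sum_sub_distrib] at h4
  rw [h2, h3] at h1
  linarith

/-- These two weights are not changed. -/
theorem PhiE_keep (hN : 2 ≤ N) (hk1 : 2 ≤ k) (hk' : k ≤ N) (hU : U N j ω 1 < 0) :
    ext (PhiE N j k ω) (1, N - 1) = ext ω (1, N - 1) ∧
      ext (PhiE N j k ω) (2, N - 2) = ext ω (2, N - 2) := by
  constructor
  · rw [NotRL_ext (by omega) (by omega), if_pos ⟨rfl, le_rfl, by omega⟩, max_eq_right hU.le,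
      sub_zero]
  · rw [NotRL_ext hN (by omega), if_neg (by omega), if_neg (by omega), if_neg (by omega),
      if_neg (by omega)]

end Pool.Agent.FX.HK
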