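import Pool.Agent.H.MP_f13560_pr.HK.RLr

/-!
# From `hk N j 1` to the corner path
-/

set_option autoImplicit false

open MeasureTheory ProbabilityTheory

namespace Pool.Agent.FX.HK

variable {N j k : ℕ}

/-- the reflection of the cells -/
private def sg (N : ℕ) : Equiv.Perm (Fin (N + 1) × Fin (N + 1)) :=
  ⟨fun c => (c.2.rev, c.1.rev), fun c => (c.2.rev, c.1.rev), fun c => by simp, fun c => by simp⟩

private theorem sg_sg (c : Fin (N + 1) × Fin (N + 1)) : sg N (sg N c) = c := (sg N).left_inv c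

private def R (N : ℕ) (ω : Env N) : Env N := fun c => ω (sg N c)

private theorem R_R (ω : Env N) : R N (R N ω) = ω := by
  funext c
  show ω (sg N (sg N c)) = ω c
  rw [sg_sg]

private theorem rev_len (v : ℕ → Fin (N + 1) × Fin (N + 1)) (ω : Env N) :
    len N (fun k => ((v (2 * N - k)).2.rev, (v (2 * N - k)).1.rev)) ω = len N v (R N ω) := by
  unfold len
  rw [← Finset.sum_range_reflect (fun k => R N ω (v k)) (2 * N + 1)]
  rfl

private theorem rev_cone (v : ℕ → Fin (N + 1) × Fin (N + 1)) (ω : Env N) :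
    ω ∈ cone N (fun k => ((v (2 * N - k)).2.rev, (v (2 * N - k)).1.rev)) ↔ R N ω ∈ cone N v := by
  constructor
  · rintro ⟨h1, h2⟩
    refine ⟨fun c => h1 _, fun v' hv' => ?_⟩
    have h3 := h2 _ (NB.sym_rev_path hv')
    rw [rev_len, rev_len] at h3
    exact h3
  · rintro ⟨h1, h2⟩
    refine ⟨fun c => ?_, fun v' hv' => ?_⟩
    · have h3 : 0 ≤ ω (sg N (sg N c)) := h1 (sg N c)
      rw [sg_sg] at h3
      exact h3
    · have h3 := h2 _ (NB.sym_rev_path hv')
      have h4 : len N (fun k => ((v' (2 * N - k)).2.rev, (v' (2 * N - k)).1.rev)) (R N ω) =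
          len N v' (R N (R N ω)) := rev_len v' (R N ω)
      rw [h4, R_R] at h3
      rw [rev_len]
      exact h3

private theorem rev_pk (hN : 2 ≤ N) (hj1 : 1 ≤ j) (hj : j ≤ N) (i : ℕ) (hi : i ≤ 2 * N) :
    hk N j 1 i = ((FZ.pk N j (2 * N - i)).2.rev, (FZ.pk N j (2 * N - i)).1.rev) := by
  unfold hk FZ.pk
  refine Prod.ext (Fin.ext ?_) (Fin.ext ?_) <;>
    split_ifs <;> simp only [Fin.val_rev] <;> omega

private theorem rev_corner (i : ℕ) (hi : i ≤ 2 * N) :
    corner N i = ((corner N (2 * N - i)).2.rev, (corner N (2 * N - i)).1.rev) := by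
  unfold corner
  refine Prod.ext (Fin.ext ?_) (Fin.ext ?_) <;> simp only [Fin.val_rev] <;> omega

private theorem F_up (hj1 : 1 ≤ j) (ω : Env N) (x : ℕ) (hx : 1 ≤ x) :
    ext (R N (FZ.Phi N j (R N ω))) (x, N) = ext ω (x, N) := by
  unfold ext
  split_ifs with h
  · have h1 : x < N + 1 := h.1
    have e1 : (sg N (⟨x, h.1⟩, ⟨N, h.2⟩)).1.val = 0 := by
      show (Fin.rev ⟨N, h.2⟩ : Fin (N + 1)).val = 0
      rw [Fin.val_rev]
      show N + 1 - (N + 1) = 0
      omega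
    have e2 : (sg N (⟨x, h.1⟩, ⟨N, h.2⟩)).2.val = N - x := by
      show (Fin.rev ⟨x, h.1⟩ : Fin (N + 1)).val = N - x
      rw [Fin.val_rev]
      show N + 1 - (x + 1) = N - x
      omega
    show FZ.Phi N j (R N ω) (sg N (⟨x, h.1⟩, ⟨N, h.2⟩)) = _
    unfold FZ.Phi
    rw [e1, e2, if_neg (by omega), if_neg (by omega), if_neg (by omega), if_neg (by omega)]
    show ω (sg N (sg N (⟨x, h.1⟩, ⟨N, h.2⟩))) = _
    rw [sg_sg]
  · rfl

private theorem F_low (hN : 2 ≤ N) (hj1 : 1 ≤ j) (ω : Env N) (x : ℕ) (hx : 2 ≤ x) :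
    ext (R N (FZ.Phi N j (R N ω))) (x, N - 1) = ext ω (x, N - 1) := by
  unfold ext
  split_ifs with h
  · have h1 : x < N + 1 := h.1
    have e1 : (sg N (⟨x, h.1⟩, ⟨N - 1, h.2⟩)).1.val = 1 := by
      show (Fin.rev ⟨N - 1, h.2⟩ : Fin (N + 1)).val = 1
      rw [Fin.val_rev]
      show N + 1 - (N - 1 + 1) = 1
      omega
    have e2 : (sg N (⟨x, h.1⟩, ⟨N - 1, h.2⟩)).2.val = N - x := by
      show (Fin.rev ⟨x, h.1⟩ : Fin (N + 1)).val = N - x
      rw [Fin.val_rev]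
      show N + 1 - (x + 1) = N - x
      omega
    show FZ.Phi N j (R N ω) (sg N (⟨x, h.1⟩, ⟨N - 1, h.2⟩)) = _
    unfold FZ.Phi
    rw [e1, e2, if_neg (by omega), if_neg (by omega), if_neg (by omega), if_neg (by omega)]
    show ω (sg N (sg N (⟨x, h.1⟩, ⟨N - 1, h.2⟩))) = _
    rw [sg_sg]
  · rfl

/-- Let `σ c = (c.2.rev, c.1.rev)` and `R ω = fun c => ω (σ c)`. As in `NB.sym_rev`: `ω ∈ cone (rev v) ↔ R ω ∈ cone v` where
`rev v i = σ (v (2 N - i))`; on `0..2N` `rev (FZ.pk N j) = hk N j 1` and `rev (corner N) = corner N` (`NB.cone_congr`).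
`FZ.law_le` for `F = R ∘ FZ.Phi N j ∘ R` (`FZ.perm1`, `FZ.Phi_mp`, `FZ.sum_Phi`, `FZ.Phi_nonneg`, `FZ.Phi_cone`); `F` does not change
the cells `(x, N)`, `x ≥ 1`, and `(x, N - 1)`, `x ≥ 2`, so `F` preserves `RL N k`. `FZ.cone_closed`, `RL_meas`. -/
theorem rev_le (hN : 2 ≤ N) (hj1 : 1 ≤ j) (hj : j ≤ N) (hk' : k ≤ N) :
    law N (cone N (hk N j 1) ∩ RL N k) ≤ law N (cone N (corner N) ∩ RL N k) := by
  have hR : MeasurePreserving (R N) volume volume := FZ.perm1 (sg N)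
  have hF : MeasurePreserving (fun ω => R N (FZ.Phi N j (R N ω))) volume volume :=
    hR.comp ((FZ.Phi_mp (by omega) hj1 hj).comp hR)
  have hsR : ∀ ω : Env N, ∑ c, R N ω c = ∑ c, ω c := fun ω => Equiv.sum_comp (sg N) ω
  have hc1 : cone N (hk N j 1) = cone N (fun i =>
      ((FZ.pk N j (2 * N - i)).2.rev, (FZ.pk N j (2 * N - i)).1.rev)) :=
    NB.cone_congr (rev_pk hN hj1 hj)
  have hc2 : cone N (corner N) = cone N (fun i =>
      ((corner N (2 * N - i)).2.rev, (corner N (2 * N - i)).1.rev)) :=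
    NB.cone_congr fun i hi => rev_corner i hi
  refine FZ.law_le hF (fun ω => ?_) ((FZ.cone_closed _).measurableSet.inter (RL_meas N k))
    fun ω hω => ?_
  · rw [hsR, FZ.sum_Phi (by omega) hj1 hj, hsR]
  · obtain ⟨h1, h2⟩ := hω
    have h3 : R N ω ∈ cone N (FZ.pk N j) := by
      rw [hc1] at h1
      exact (rev_cone _ ω).1 h1
    have h4 := FZ.Phi_nonneg (by omega) hj1 hj h3
    have h5 := FZ.Phi_cone (by omega) hj1 hj h3
    refine ⟨h1.1, fun c => h4 _, ?_, ?_⟩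
    · rw [hc2]
      refine (rev_cone _ _).2 ?_
      rw [R_R]
      exact h5
    · intro i hi
      have h6 := h2 i hi
      rw [Finset.sum_congr rfl fun l _ => F_low hN hj1 ω (l + 2) (by omega),
        Finset.sum_congr rfl fun l _ => F_up hj1 ω (l + 1) (by omega)]
      exact h6

end Pool.Agent.FX.HK
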