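import Pool.Agent.H.MP_f13560_pr.HK.DetE
import Pool.Agent.H.MP_f13560_pr.HK.NotRL
import Pool.Agent.H.MP_f13560_pr.HK.MPE
import Pool.Agent.H.MP_f13560_pr.HK.MPR
import Pool.Agent.H.MP_f13560_pr.HK.DetR
import Pool.Agent.H.MP_f13560_pr.HK.Rev
import Pool.Agent.H.MP_f13560_pr.HK.Bx2

/-!
# The comparison for the paths through `(1, N - 1)`
-/

set_option autoImplicit false

open MeasureTheory ProbabilityTheory

namespace Pool.Agent.FX.HK

variable {N j k : ℕ}

/-- `law (cone hk) ≤ law (cone hk ∩ {0 ≤ U 1}) + law (cone hk ∩ {U 1 < 0})`; the first is at most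
`law (cone (hk N j 1) ∩ RL)` (`FZ.law_le` for `Er`) and so at most `law (cone corner ∩ RL)` (`rev_le`); the second is at most
`law ((cone corner \ RL) \ O)` (`FZ.law_le` for `PhiE`, `fac4`, `PhiE_keep`, `exists_bx`), and `0 < law O`. -/
theorem hk_lt (hN : 2 ≤ N) (hj1 : 2 ≤ j) (hj : j ≤ N) (hk1 : 2 ≤ k) (hk' : k ≤ N) :
    law N (cone N (hk N j k)) < law N (cone N (corner N)) := by
  have : IsProbabilityMeasure (expMeasure (1 : ℝ)) := isProbabilityMeasure_expMeasure one_pos
  have : IsProbabilityMeasure (law N) := by unfold law; infer_instance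
  obtain ⟨O, hO, hO0, hOc, hOr, hOb⟩ := exists_bx (N := N) (k := k) hN hk1 hk'
  have hCm : MeasurableSet (cone N (corner N)) := (FZ.cone_closed _).measurableSet
  have hC1 : MeasurableSet (cone N (hk N j 1)) := (FZ.cone_closed _).measurableSet
  have hR : MeasurableSet (RL N k) := RL_meas N k
  have hj0 : 1 ≤ j := by omega
  have h1 : law N (cone N (hk N j k) ∩ {ω | 0 ≤ U N j ω 1}) ≤
      law N (cone N (hk N j 1) ∩ RL N k) := by
    refine FZ.law_le (Er_mp hN hk1 hk') (Er_sum hN hk1 hk') (hC1.inter hR) ?_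
    rintro ω ⟨hω, hU⟩
    obtain ⟨h3, h4⟩ := Er_mem hN hj0 hj hk1 hk' hω hU
    exact ⟨hω.1, h3, h4, Er_RL hN hk1 hk' (W_nonneg hN hj0 hj hk1 hk' hω)⟩
  have h2 : law N (cone N (hk N j k) ∩ {ω | U N j ω 1 < 0}) ≤
      law N ((cone N (corner N) \ RL N k) \ O) := by
    refine FZ.law_le (PhiE_mp hN hj0 hj hk1 hk') (PhiE_sum hN hk1 hk') ((hCm.diff hR).diff hO) ?_
    rintro ω ⟨hω, hU⟩
    obtain ⟨h3, h4⟩ := PhiE_mem hN hj0 hj hk1 hk' hω hU
    have hU0 := U_nonneg hN hj0 hj (by omega) hk' hω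
    refine ⟨hω.1, h3, ⟨h4, PhiE_not hN hk1 hk' hU hU0⟩, fun hm => ?_⟩
    have h5 := hOb _ hm
    obtain ⟨h6, h7⟩ := PhiE_keep hN hk1 hk' hU
    rw [h6, h7] at h5
    exact absurd h5 (not_lt.2 (fac4 hN hj1 hj hk1 hk' hω))
  have h3 : law N (cone N (hk N j k)) ≤ law N (cone N (hk N j k) ∩ {ω | 0 ≤ U N j ω 1}) +
      law N (cone N (hk N j k) ∩ {ω | U N j ω 1 < 0}) := by
    refine (measure_mono ?_).trans (measure_union_le _ _)
    intro ω hω
    rcases le_or_gt 0 (U N j ω 1) with h | h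
    · exact Or.inl ⟨hω, h⟩
    · exact Or.inr ⟨hω, h⟩
  have h4 : law N (cone N (corner N) ∩ RL N k) + law N (cone N (corner N) \ RL N k) =
      law N (cone N (corner N)) := measure_inter_add_sdiff _ hR
  have h5 : law N ((cone N (corner N) \ RL N k) \ O) + law N O =
      law N (cone N (corner N) \ RL N k) := by
    have h6 := measure_inter_add_sdiff (μ := law N) (cone N (corner N) \ RL N k) hO
    have hsub : O ⊆ cone N (corner N) \ RL N k := fun ω hω => ⟨hOc hω, hOr ω hω⟩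
    rw [Set.inter_eq_self_of_subset_right hsub, add_comm] at h6
    exact h6
  calc law N (cone N (hk N j k))
      ≤ law N (cone N (corner N) ∩ RL N k) + law N ((cone N (corner N) \ RL N k) \ O) :=
        h3.trans (add_le_add (h1.trans (rev_le hN hj0 hj hk')) h2)
    _ < law N (cone N (corner N) ∩ RL N k) + law N ((cone N (corner N) \ RL N k) \ O) +
        law N O := ENNReal.lt_add_right (ENNReal.add_ne_top.2
          ⟨measure_ne_top _ _, measure_ne_top _ _⟩) hO0.ne'
    _ = law N (cone N (corner N)) := by rw [add_assoc, h5, h4]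

end Pool.Agent.FX.HK
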