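import Pool.Agent.H.MP_f13560_pr.HK.Defs

/-!
# The image of the first piece
-/

set_option autoImplicit false

open MeasureTheory ProbabilityTheory

namespace Pool.Agent.FX.HK

variable {N k : ℕ} {ω : Env N}

private lemma RLr_ext {x y : ℕ} (hx : x ≤ N) (hy : y ≤ N) :
    ext (Er N k ω) (x, y) = if y = N - 1 ∧ 2 ≤ x ∧ x < k then ext ω (x, y) - max (W N ω x) 0
      else if y = N - 1 ∧ x = k then ext ω (x, y) - W N ω k
      else if y = N ∧ 2 ≤ x ∧ x < k then ext ω (x, y) + max (W N ω x) 0
      else if y = N ∧ x = 1 then ext ω (x, y) + W N ω k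
      else ext ω (x, y) := by
  rw [Pool.Agent.FZ.ext_at _ (by omega) (by omega), Pool.Agent.FZ.ext_at _ (by omega) (by omega)]
  rfl

/-- With `ω' = Er N k ω`: by induction on `i`, for `1 ≤ i`, `i + 1 < k`:
`∑_{l < i} (b' (l + 1) - a' (l + 2)) = W k + (W 2)⁺ + ... + (W i)⁺ + (W (i + 1))⁻`, and for `i = k - 1`
`= W k + (W 2)⁺ + ... + (W (k - 1))⁺` (`b' l - a' (l + 1) = W l + (W (l + 1))⁻` for `2 ≤ l`, `l + 1 < k`, `= W l` for `l + 1 = k`; for
`l = 1` add `W k`; `W 1 = 0`). -/
theorem Er_RL (hN : 2 ≤ N) (hk1 : 2 ≤ k) (hk' : k ≤ N) (hW : 0 ≤ W N ω k) : Er N k ω ∈ RL N k := by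
  have hA : ∀ x, 2 ≤ x → x < k →
      ext (Er N k ω) (x, N - 1) = ext ω (x, N - 1) - max (W N ω x) 0 := by
    intro x h1 h2
    rw [RLr_ext (by omega) (by omega), if_pos ⟨rfl, h1, h2⟩]
  have hAk : ext (Er N k ω) (k, N - 1) = ext ω (k, N - 1) - W N ω k := by
    rw [RLr_ext (by omega) (by omega), if_neg (by omega), if_pos ⟨rfl, rfl⟩]
  have hB : ∀ x, 2 ≤ x → x < k → ext (Er N k ω) (x, N) = ext ω (x, N) + max (W N ω x) 0 := by
    intro x h1 h2
    rw [RLr_ext (by omega) (by omega), if_neg (by omega), if_neg (by omega),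
      if_pos ⟨rfl, h1, h2⟩]
  have hB1 : ext (Er N k ω) (1, N) = ext ω (1, N) + W N ω k := by
    rw [RLr_ext (by omega) (by omega), if_neg (by omega), if_neg (by omega), if_neg (by omega),
      if_pos ⟨rfl, rfl⟩]
  have hr : ∀ x, W N ω (x + 2) =
      ext ω (x + 2, N - 1) - ext ω (x + 1, N) - max (-W N ω (x + 1)) 0 := fun x => rfl
  have hW1 : W N ω 1 = 0 := rfl
  have key : ∀ i, i + 2 < k → max (-W N ω (i + 2)) 0 ≤ ∑ l ∈ Finset.range (i + 1),
      (ext (Er N k ω) (l + 1, N) - ext (Er N k ω) (l + 2, N - 1)) := by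
    intro i
    induction i with
    | zero =>
      intro h
      rw [Finset.sum_range_succ, Finset.sum_range_zero, hB1, hA 2 le_rfl h]
      have h1 := hr 0
      have h2 := Pool.Agent.FZ.pos_sub_neg (W N ω 2)
      simp only [zero_add, hW1, neg_zero, max_self, sub_zero] at h1 ⊢
      linarith
    | succ i ih =>
      intro h
      have h0 := ih (by omega)
      rw [Finset.sum_range_succ, hB (i + 1 + 1) (by omega) (by omega),
        hA (i + 1 + 2) (by omega) h]
      have h1 := hr (i + 1)
      have h2 := Pool.Agent.FZ.pos_sub_neg (W N ω (i + 1 + 2))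
      have h3 := Pool.Agent.FZ.pos_sub_neg (W N ω (i + 2))
      have h4 : 0 ≤ max (W N ω (i + 2)) 0 := le_max_right _ _
      have h5 : i + 1 + 1 = i + 2 := rfl
      rw [h5] at h1 ⊢
      linarith
  intro i hi
  have hgoal : 0 ≤ ∑ l ∈ Finset.range i,
      (ext (Er N k ω) (l + 1, N) - ext (Er N k ω) (l + 2, N - 1)) := by
    rcases i with _ | i
    · simp
    · rcases lt_or_eq_of_le (show i + 2 ≤ k by omega) with h | h
      · exact (le_max_right _ _).trans (key i h)
      · rcases i with _ | i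
        · have hk2 : k = 2 := by omega
          subst hk2
          rw [Finset.sum_range_succ, Finset.sum_range_zero, hB1, hAk]
          have h1 := hr 0
          simp only [zero_add, hW1, neg_zero, max_self, sub_zero] at h1 ⊢
          linarith
        · have h0 := key i (by omega)
          have hk3 : k = i + 1 + 2 := by omega
          rw [Finset.sum_range_succ, hB (i + 1 + 1) (by omega) (by omega), ← hk3, hAk]
          have h1 := hr (i + 1)
          have h3 := Pool.Agent.FZ.pos_sub_neg (W N ω (i + 2))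
          have h4 : 0 ≤ max (W N ω (i + 2)) 0 := le_max_right _ _
          have h5 : i + 1 + 1 = i + 2 := rfl
          rw [← hk3, h5] at h1
          rw [h5]
          linarith
  rw [Finset.sum_sub_distrib] at hgoal
  linarith

private lemma RLr_meas (c : ℕ × ℕ) : Measurable fun ω : Env N => ext ω c := by
  unfold ext
  split_ifs
  · exact measurable_pi_apply _
  · exact measurable_const

/-- closed -/
theorem RL_meas (N k : ℕ) : MeasurableSet (RL N k) := by
  have h : RL N k = ⋂ (i : ℕ) (_ : i < k), {ω : Env N |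
      ∑ l ∈ Finset.range i, ext ω (l + 2, N - 1) ≤ ∑ l ∈ Finset.range i, ext ω (l + 1, N)} := by
    ext ω
    simp only [RL, Set.mem_ofPred_eq, Set.mem_iInter]
  rw [h]
  refine MeasurableSet.iInter fun i => MeasurableSet.iInter fun _ => measurableSet_le ?_ ?_
  · exact Finset.measurable_sum _ fun l _ => RLr_meas _
  · exact Finset.measurable_sum _ fun l _ => RLr_meas _

end Pool.Agent.FX.HK
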